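import Pool.Agent.R489.UPS.Exist

/-!
Clusters of points near a parabola: every planar graph is drawn inside one cluster, and a
set of at least four points inside a triangle spanned by three of its points lies in one
cluster except for at most one point.
-/

set_option autoImplicit false

namespace Pool.Agent.R489.UPS

open Filter Topology

/-- clusters: the lines through two points of a cluster leave all other clusters on one side,
and each cluster is cut off from the others by a line -/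
structure Clu {ι : Type*} (A : ι → Finset (ℝ × ℝ)) : Prop where
  side : ∀ i, ∀ a ∈ A i, ∀ d ∈ A i, a ≠ d → ∀ l, l ≠ i → ∀ p ∈ A l, ∀ l', l' ≠ i →
    ∀ q ∈ A l', 0 < det a d p * det a d q
  cut : ∀ i, ∃ u v w : ℝ, (∀ p ∈ A i, u * p.1 + v * p.2 + w < 0) ∧
    ∀ l, l ≠ i → ∀ p ∈ A l, 0 < u * p.1 + v * p.2 + w

theorem Clu.none {ι : Type*} {A : ι → Finset (ℝ × ℝ)} (h : Clu A) {i a b c : ι}
    {w x y z : ℝ × ℝ} (hw : w ∈ A i) (hx : x ∈ A a) (hy : y ∈ A b) (hz : z ∈ A c)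
    (ha : a ≠ i) (hb : b ≠ i) (hc : c ≠ i) : ¬ InC x y z w := by
  rintro ⟨r, s, t, hr, hs, ht, hsum, e1, e2⟩
  obtain ⟨u, v, k, h1, h2⟩ := h.cut i
  have i0 := h1 w hw
  have i1 := h2 a ha x hx
  have i2 := h2 b hb y hy
  have i3 := h2 c hc z hz
  have e : u * w.1 + v * w.2 + k = r * (u * x.1 + v * x.2 + k) + s * (u * y.1 + v * y.2 + k)
      + t * (u * z.1 + v * z.2 + k) := by
    rw [e1, e2]
    have : r = 1 - s - t := by linarith
    subst this; ring
  have j1 := mul_nonneg hr i1.le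
  have j2 := mul_nonneg hs i2.le
  have j3 := mul_nonneg ht i3.le
  linarith

theorem Clu.one {ι : Type*} {A : ι → Finset (ℝ × ℝ)} (h : Clu A) {i b c : ι}
    {w x y z : ℝ × ℝ} (hw : w ∈ A i) (hx : x ∈ A i) (hy : y ∈ A b) (hz : z ∈ A c)
    (hb : b ≠ i) (hc : c ≠ i) (hwx : w ≠ x) : ¬ InC x y z w := by
  rintro ⟨r, s, t, hr, hs, ht, hsum, e1, e2⟩
  have i1 := h.side i w hw x hx hwx b hb y hy c hc z hz
  have i2 := h.side i w hw x hx hwx b hb y hy b hb y hy
  have i3 := h.side i w hw x hx hwx c hc z hz c hc z hz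
  have e : s * det w x y + t * det w x z = 0 := by
    have h1 : det w x w = r * det w x x + s * det w x y + t * det w x z := by
      have h2 : r = 1 - s - t := by linarith
      simp only [det]
      subst h2
      linear_combination (x.1 - w.1) * e2 - (x.2 - w.2) * e1
    have h3 : det w x w = 0 := by simp only [det]; ring
    have h4 : det w x x = 0 := by simp only [det]; ring
    rw [h3, h4] at h1
    linarith
  have e' : s * (det w x y * det w x y) + t * (det w x y * det w x z) = 0 := by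
    linear_combination det w x y * e
  have j2 := mul_nonneg hs i2.le
  have j3 := mul_nonneg ht i1.le
  have k2 : s * (det w x y * det w x y) = 0 := by linarith
  have k3 : t * (det w x y * det w x z) = 0 := by linarith
  have s0 : s = 0 := by
    rcases mul_eq_zero.1 k2 with h | h
    · exact h
    · linarith
  have t0 : t = 0 := by
    rcases mul_eq_zero.1 k3 with h | h
    · exact h
    · linarith
  apply hwx
  have r1 : r = 1 := by linarith
  subst s0; subst t0; subst r1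
  ext
  · rw [e1]; ring
  · rw [e2]; ring

theorem Clu.two {ι : Type*} {A : ι → Finset (ℝ × ℝ)} (h : Clu A) {i a b c : ι}
    {w x y z : ℝ × ℝ} (hw : w ∈ A i) (hx : x ∈ A a) (hy : y ∈ A b) (hz : z ∈ A c)
    (h1 : w ≠ x) (h2 : w ≠ y) (h3 : w ≠ z) (hC : InC x y z w) :
    (a = i ∧ b = i) ∨ (b = i ∧ c = i) ∨ (a = i ∧ c = i) := by
  by_cases ha : a = i <;> by_cases hb : b = i <;> by_cases hc : c = i
  · exact Or.inl ⟨ha, hb⟩
  · exact Or.inl ⟨ha, hb⟩
  · exact Or.inr (Or.inr ⟨ha, hc⟩)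
  · subst ha; exact absurd hC (h.one hw hx hy hz hb hc h1)
  · exact Or.inr (Or.inl ⟨hb, hc⟩)
  · subst hb; exact absurd hC.rot (h.one hw hy hz hx hc ha h2)
  · subst hc; exact absurd hC.rot.rot (h.one hw hz hx hy ha hb h3)
  · exact absurd hC (h.none hw hx hy hz ha hb hc)

/-- a set inside a triangle of three of its points lies in one cluster up to one point -/
theorem Clu.tri {ι : Type*} {A : ι → Finset (ℝ × ℝ)} (h : Clu A) {X : Finset (ℝ × ℝ)}
    (hX : ∀ p ∈ X, ∃ i, p ∈ A i) (h4 : 4 ≤ X.card) {x y z : ℝ × ℝ} (hx : x ∈ X) (hy : y ∈ X)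
    (hz : z ∈ X) (hC : ∀ w ∈ X, InC x y z w) :
    ∃ i, (∃ w ∈ X, w ∈ A i) ∧ ∃ z0 ∈ X, ∀ w ∈ X, w = z0 ∨ w ∈ A i := by
  obtain ⟨a, ha⟩ := hX x hx
  obtain ⟨b, hb⟩ := hX y hy
  obtain ⟨c, hc⟩ := hX z hz
  obtain ⟨w, hw, hw'⟩ : ∃ w ∈ X, w ∉ ({x, y, z} : Finset (ℝ × ℝ)) := by
    apply Finset.exists_mem_notMem_of_card_lt_card
    have := Finset.card_le_three (a := x) (b := y) (c := z)
    omega
  simp only [Finset.mem_insert, Finset.mem_singleton, not_or] at hw'
  obtain ⟨i, hi⟩ := hX w hw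
  have gen : ∀ l, ∀ w ∈ X, w ∈ A l → (w = x ∨ w = y ∨ w = z) ∨
      ((a = l ∧ b = l) ∨ (b = l ∧ c = l) ∨ (a = l ∧ c = l)) := by
    intro l w hw hl
    by_cases h1 : w = x
    · exact Or.inl (Or.inl h1)
    by_cases h2 : w = y
    · exact Or.inl (Or.inr (Or.inl h2))
    by_cases h3 : w = z
    · exact Or.inl (Or.inr (Or.inr h3))
    · exact Or.inr (h.two hl ha hb hc h1 h2 h3 (hC w hw))
  have main : (a = i ∧ b = i) ∨ (b = i ∧ c = i) ∨ (a = i ∧ c = i) :=
    h.two hi ha hb hc hw'.1 hw'.2.1 hw'.2.2 (hC w hw)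
  refine ⟨i, ⟨w, hw, hi⟩, ?_⟩
  rcases main with ⟨h1, h2⟩ | ⟨h1, h2⟩ | ⟨h1, h2⟩
  · refine ⟨z, hz, fun v hv => ?_⟩
    obtain ⟨l, hl⟩ := hX v hv
    rcases gen l v hv hl with (g | g | g) | (⟨g1, g2⟩ | ⟨g1, g2⟩ | ⟨g1, g2⟩)
    · right; rw [g, ← h1]; exact ha
    · right; rw [g, ← h2]; exact hb
    · left; exact g
    · right; rw [← h1, g1]; exact hl
    · right; rw [← h2, g1]; exact hl
    · right; rw [← h1, g1]; exact hl
  · refine ⟨x, hx, fun v hv => ?_⟩
    obtain ⟨l, hl⟩ := hX v hv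
    rcases gen l v hv hl with (g | g | g) | (⟨g1, g2⟩ | ⟨g1, g2⟩ | ⟨g1, g2⟩)
    · left; exact g
    · right; rw [g, ← h1]; exact hb
    · right; rw [g, ← h2]; exact hc
    · right; rw [← h1, g2]; exact hl
    · right; rw [← h1, g1]; exact hl
    · right; rw [← h2, g2]; exact hl
  · refine ⟨y, hy, fun v hv => ?_⟩
    obtain ⟨l, hl⟩ := hX v hv
    rcases gen l v hv hl with (g | g | g) | (⟨g1, g2⟩ | ⟨g1, g2⟩ | ⟨g1, g2⟩)
    · right; rw [g, ← h1]; exact ha
    · left; exact g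
    · right; rw [g, ← h2]; exact hc
    · right; rw [← h1, g1]; exact hl
    · right; rw [← h2, g2]; exact hl
    · right; rw [← h1, g1]; exact hl

/-- affine maps keep drawings -/
theorem IsDrawing.affine {V : Type*} {G : SimpleGraph V} {p : V → ℝ × ℝ} (hd : IsDrawing G p)
    {a b c d e f : ℝ} (hdet : b * f - c * e ≠ 0) :
    IsDrawing G (fun v => (a + b * (p v).1 + c * (p v).2, d + e * (p v).1 + f * (p v).2)) := by
  have inj : ∀ x y : ℝ, b * x + c * y = 0 → e * x + f * y = 0 → x = 0 ∧ y = 0 := by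
    intro x y h1 h2
    constructor
    · have : (b * f - c * e) * x = 0 := by linear_combination f * h1 - c * h2
      rcases mul_eq_zero.1 this with h | h
      · exact absurd h hdet
      · exact h
    · have : (b * f - c * e) * y = 0 := by linear_combination b * h2 - e * h1
      rcases mul_eq_zero.1 this with h | h
      · exact absurd h hdet
      · exact h
  have pull : ∀ (x u v : ℝ × ℝ),
      (a + b * x.1 + c * x.2, d + e * x.1 + f * x.2) ∈ segment ℝ
        ((a + b * u.1 + c * u.2, d + e * u.1 + f * u.2) : ℝ × ℝ)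
        (a + b * v.1 + c * v.2, d + e * v.1 + f * v.2) → x ∈ segment ℝ u v := by
    intro x u v h
    rw [seg_mem_iff] at h ⊢
    obtain ⟨t, t0, t1, e1, e2⟩ := h
    simp only at e1 e2
    obtain ⟨i1, i2⟩ := inj (x.1 - u.1 - t * (v.1 - u.1)) (x.2 - u.2 - t * (v.2 - u.2))
      (by linear_combination e1) (by linear_combination e2)
    exact ⟨t, t0, t1, by linarith, by linarith⟩
  have lift : ∀ (q u v : ℝ × ℝ), q ∈ segment ℝ
        ((a + b * u.1 + c * u.2, d + e * u.1 + f * u.2) : ℝ × ℝ)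
        (a + b * v.1 + c * v.2, d + e * v.1 + f * v.2) → ∃ x : ℝ × ℝ,
        q = (a + b * x.1 + c * x.2, d + e * x.1 + f * x.2) ∧ x ∈ segment ℝ u v := by
    intro q u v h
    rw [seg_mem_iff] at h
    obtain ⟨t, t0, t1, e1, e2⟩ := h
    simp only at e1 e2
    refine ⟨(u.1 + t * (v.1 - u.1), u.2 + t * (v.2 - u.2)), ?_, ?_⟩
    · ext
      · simp only; rw [e1]; ring
      · simp only; rw [e2]; ring
    · rw [seg_mem_iff]; exact ⟨t, t0, t1, rfl, rfl⟩
  refine ⟨?_, ?_, ?_⟩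
  · intro x y hxy
    simp only [Prod.mk.injEq] at hxy
    obtain ⟨h1, h2⟩ := hxy
    obtain ⟨i1, i2⟩ := inj ((p x).1 - (p y).1) ((p x).2 - (p y).2)
      (by linear_combination h1) (by linear_combination h2)
    apply hd.1
    ext
    · linarith
    · linarith
  · intro x y z hxy hzx hzy h
    exact hd.2.1 x y z hxy hzx hzy (pull _ _ _ h)
  · rintro x y z w hxy hzw hne q ⟨hq1, hq2⟩
    obtain ⟨r, rfl, hr⟩ := lift _ _ _ hq1
    have hr' := pull _ _ _ hq2
    have := hd.2.2 x y z w hxy hzw hne ⟨hr, hr'⟩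
    simp only [Set.mem_inter_iff, Set.mem_insert_iff, Set.mem_singleton_iff] at this ⊢
    obtain ⟨i1, i2⟩ := this
    constructor
    · rcases i1 with h | h
      · left; rw [h]
      · right; rw [h]
    · rcases i2 with h | h
      · left; rw [h]
      · right; rw [h]

/-- a drawing with distinct first coordinates -/
theorem IsDrawing.shear {V : Type*} [Finite V] {G : SimpleGraph V} {p : V → ℝ × ℝ}
    (hd : IsDrawing G p) : ∃ q : V → ℝ × ℝ, IsDrawing G q ∧
      ∀ a b, (q a).1 = (q b).1 → a = b := by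
  have hfin : Set.Finite {ε : ℝ | ∃ a b : V, a ≠ b ∧
      (p a).1 + ε * (p a).2 = (p b).1 + ε * (p b).2} := by
    have : {ε : ℝ | ∃ a b : V, a ≠ b ∧ (p a).1 + ε * (p a).2 = (p b).1 + ε * (p b).2} ⊆
        Set.range (fun ab : V × V => ((p ab.2).1 - (p ab.1).1) / ((p ab.1).2 - (p ab.2).2)) := by
      rintro ε ⟨a, b, hab, h⟩
      refine ⟨(a, b), ?_⟩
      simp only
      have hne : (p a).2 - (p b).2 ≠ 0 := by
        intro h0
        apply hab
        apply hd.1
        have h2 : (p a).2 = (p b).2 := by linarith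
        rw [h2] at h
        ext
        · linarith
        · exact h2
      field_simp
      linarith
    exact Set.Finite.subset (Set.finite_range _) this
  obtain ⟨ε, hε⟩ := hfin.exists_notMem
  refine ⟨_, hd.affine (a := 0) (b := 1) (c := ε) (d := 0) (e := 0) (f := 1) (by simp), ?_⟩
  intro a b h
  by_contra hab
  apply hε
  refine ⟨a, b, hab, ?_⟩
  simp only at h
  linarith

/-- placement of the `i`-th cluster near the parabola -/
noncomputable def psi (t : ℝ) (i : ℕ) (x : ℝ × ℝ) : ℝ × ℝ :=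
  ((i : ℝ) + t * x.1 + 0 * x.2, (i : ℝ) ^ 2 + (2 * i * t) * x.1 + t ^ 2 * x.2)

theorem det_psi_swap (a b c : ℝ × ℝ) : det b a c = - det a b c := by
  simp only [det]; ring

theorem ev_side (i l : ℕ) (h : l ≠ i) (a d p : ℝ × ℝ) (had : a.1 < d.1) :
    ∀ᶠ t : ℝ in 𝓝[>] 0, 0 < det (psi t i a) (psi t i d) (psi t l p) := by
  have hli : (0 : ℝ) < ((l : ℝ) - i) ^ 2 := by
    have : (l : ℝ) - i ≠ 0 := by
      intro h0
      apply h
      have : (l : ℝ) = i := by linarith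
      exact_mod_cast this
    positivity
  have hc : Continuous (fun t : ℝ => (d.1 - a.1) * ((l : ℝ) ^ 2 - (i : ℝ) ^ 2 +
      2 * t * (l * p.1 - i * a.1) + t ^ 2 * (p.2 - a.2)) -
      (2 * i * (d.1 - a.1) + t * (d.2 - a.2)) * ((l : ℝ) - i + t * (p.1 - a.1))) := by
    fun_prop
  have h0 : 0 < (fun t : ℝ => (d.1 - a.1) * ((l : ℝ) ^ 2 - (i : ℝ) ^ 2 +
      2 * t * (l * p.1 - i * a.1) + t ^ 2 * (p.2 - a.2)) -
      (2 * i * (d.1 - a.1) + t * (d.2 - a.2)) * ((l : ℝ) - i + t * (p.1 - a.1))) 0 := by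
    have e : (fun t : ℝ => (d.1 - a.1) * ((l : ℝ) ^ 2 - (i : ℝ) ^ 2 +
      2 * t * (l * p.1 - i * a.1) + t ^ 2 * (p.2 - a.2)) -
      (2 * i * (d.1 - a.1) + t * (d.2 - a.2)) * ((l : ℝ) - i + t * (p.1 - a.1))) 0
      = (d.1 - a.1) * ((l : ℝ) - i) ^ 2 := by
      simp only; ring
    rw [e]
    exact mul_pos (by linarith) hli
  have h1 := (hc.tendsto 0).eventually (lt_mem_nhds h0)
  have h2 := nhdsWithin_le_nhds (s := Set.Ioi (0 : ℝ)) h1
  filter_upwards [h2, self_mem_nhdsWithin] with t ht ht0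
  have ht0' : 0 < t := ht0
  have e : det (psi t i a) (psi t i d) (psi t l p) = t * ((d.1 - a.1) * ((l : ℝ) ^ 2 -
      (i : ℝ) ^ 2 + 2 * t * (l * p.1 - i * a.1) + t ^ 2 * (p.2 - a.2)) -
      (2 * i * (d.1 - a.1) + t * (d.2 - a.2)) * ((l : ℝ) - i + t * (p.1 - a.1))) := by
    simp only [det, psi]; ring
  rw [e]
  exact mul_pos ht0' ht

theorem ev_cut (i l : ℕ) (h : l ≠ i) (p : ℝ × ℝ) :
    ∀ᶠ t : ℝ in 𝓝[>] 0, 0 < (-2 * i) * (psi t l p).1 + 1 * (psi t l p).2 + ((i : ℝ) ^ 2 - 1 / 2) := by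
  have hli : (1 : ℝ) ≤ ((l : ℝ) - i) ^ 2 := by
    have h1 : (1 : ℤ) ≤ ((l : ℤ) - i) ^ 2 := by
      have : (l : ℤ) - i ≠ 0 := by omega
      have := pow_pos (abs_pos.2 this) 2
      rw [sq_abs] at this
      omega
    exact_mod_cast h1
  have hc : Continuous (fun t : ℝ => (-2 * (i : ℝ)) * (psi t l p).1 + 1 * (psi t l p).2 +
      ((i : ℝ) ^ 2 - 1 / 2)) := by
    simp only [psi]; fun_prop
  have h0 : 0 < (fun t : ℝ => (-2 * (i : ℝ)) * (psi t l p).1 + 1 * (psi t l p).2 +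
      ((i : ℝ) ^ 2 - 1 / 2)) 0 := by
    have e : (fun t : ℝ => (-2 * (i : ℝ)) * (psi t l p).1 + 1 * (psi t l p).2 +
      ((i : ℝ) ^ 2 - 1 / 2)) 0 = ((l : ℝ) - i) ^ 2 - 1 / 2 := by
      simp only [psi]; ring
    rw [e]; linarith
  exact nhdsWithin_le_nhds (s := Set.Ioi (0 : ℝ)) ((hc.tendsto 0).eventually (lt_mem_nhds h0))

theorem ev_own (i : ℕ) (p : ℝ × ℝ) :
    ∀ᶠ t : ℝ in 𝓝[>] 0, (-2 * i) * (psi t i p).1 + 1 * (psi t i p).2 + ((i : ℝ) ^ 2 - 1 / 2) < 0 := by
  have hc : Continuous (fun t : ℝ => (-2 * (i : ℝ)) * (psi t i p).1 + 1 * (psi t i p).2 +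
      ((i : ℝ) ^ 2 - 1 / 2)) := by
    simp only [psi]; fun_prop
  have h0 : (fun t : ℝ => (-2 * (i : ℝ)) * (psi t i p).1 + 1 * (psi t i p).2 +
      ((i : ℝ) ^ 2 - 1 / 2)) 0 < 0 := by
    have e : (fun t : ℝ => (-2 * (i : ℝ)) * (psi t i p).1 + 1 * (psi t i p).2 +
      ((i : ℝ) ^ 2 - 1 / 2)) 0 = - 1 / 2 := by
      simp only [psi]; ring
    rw [e]; norm_num
  exact nhdsWithin_le_nhds (s := Set.Ioi (0 : ℝ)) ((hc.tendsto 0).eventually (gt_mem_nhds h0))

theorem exists_clu {N : ℕ} (j : Fin N → ℕ) (q : ∀ i, Fin (j i) → ℝ × ℝ)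
    (hq : ∀ i a b, (q i a).1 = (q i b).1 → a = b) : ∃ t : ℝ, 0 < t ∧
    Clu (fun i : Fin N => (Finset.univ : Finset (Fin (j i))).image
      (fun a => psi t i.val (q i a))) := by
  have E1 : ∀ᶠ t : ℝ in 𝓝[>] 0, ∀ (i l : Fin N) (a d : Fin (j i)) (p : Fin (j l)), l ≠ i →
      (q i a).1 < (q i d).1 →
      0 < det (psi t i.val (q i a)) (psi t i.val (q i d)) (psi t l.val (q l p)) := by
    rw [eventually_all]; intro i
    rw [eventually_all]; intro l
    rw [eventually_all]; intro a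
    rw [eventually_all]; intro d
    rw [eventually_all]; intro p
    by_cases h : l ≠ i ∧ (q i a).1 < (q i d).1
    · filter_upwards [ev_side i.val l.val (fun hh => h.1 (Fin.ext hh)) (q i a) (q i d) (q l p) h.2]
        with t ht _ _
      exact ht
    · exact Eventually.of_forall (fun t h1 h2 => absurd ⟨h1, h2⟩ h)
  have E2 : ∀ᶠ t : ℝ in 𝓝[>] 0, ∀ (i l : Fin N) (p : Fin (j l)), l ≠ i →
      0 < (-2 * (i.val : ℝ)) * (psi t l.val (q l p)).1 + 1 * (psi t l.val (q l p)).2 +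
        ((i.val : ℝ) ^ 2 - 1 / 2) := by
    rw [eventually_all]; intro i
    rw [eventually_all]; intro l
    rw [eventually_all]; intro p
    by_cases h : l ≠ i
    · filter_upwards [ev_cut i.val l.val (fun hh => h (Fin.ext hh)) (q l p)] with t ht _
      exact ht
    · exact Eventually.of_forall (fun t h1 => absurd h1 h)
  have E3 : ∀ᶠ t : ℝ in 𝓝[>] 0, ∀ (i : Fin N) (p : Fin (j i)),
      (-2 * (i.val : ℝ)) * (psi t i.val (q i p)).1 + 1 * (psi t i.val (q i p)).2 +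
        ((i.val : ℝ) ^ 2 - 1 / 2) < 0 := by
    rw [eventually_all]; intro i
    rw [eventually_all]; intro p
    exact ev_own i.val (q i p)
  obtain ⟨t, ⟨⟨h1, h2⟩, h3⟩, h4⟩ := (((E1.and E2).and E3).and self_mem_nhdsWithin).exists
  refine ⟨t, h4, ⟨?_, ?_⟩⟩
  · intro i a ha d hd had l hl p hp l' hl' r hr
    simp only [Finset.mem_image, Finset.mem_univ, true_and] at ha hd hp hr
    obtain ⟨a, rfl⟩ := ha
    obtain ⟨d, rfl⟩ := hd
    obtain ⟨p, rfl⟩ := hp
    obtain ⟨r, rfl⟩ := hr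
    have hne : a ≠ d := by rintro rfl; exact had rfl
    have hx : (q i a).1 ≠ (q i d).1 := fun h => hne (hq i a d h)
    rcases lt_or_gt_of_ne hx with h | h
    · exact mul_pos (h1 i l a d p hl h) (h1 i l' a d r hl' h)
    · rw [det_psi_swap (psi t i.val (q i d)), det_psi_swap (psi t i.val (q i d)), neg_mul_neg]
      exact mul_pos (h1 i l d a p hl h) (h1 i l' d a r hl' h)
  · intro i
    refine ⟨-2 * (i.val : ℝ), 1, (i.val : ℝ) ^ 2 - 1 / 2, ?_, ?_⟩
    · intro p hp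
      simp only [Finset.mem_image, Finset.mem_univ, true_and] at hp
      obtain ⟨p, rfl⟩ := hp
      exact h3 i p
    · intro l hl p hp
      simp only [Finset.mem_image, Finset.mem_univ, true_and] at hp
      obtain ⟨p, rfl⟩ := hp
      exact h2 i l p hl

/-- clusters for all planar graphs with at most `k` vertices -/
theorem clusters (k : ℕ) : ∃ (N : ℕ) (A : Fin N → Finset (ℝ × ℝ)), Clu A ∧
    (∀ i, (A i).card ≤ k) ∧ ∀ j ≤ k, ∀ G : SimpleGraph (Fin j), (∃ p, IsDrawing G p) →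
    ∃ i, ∃ p, IsDrawing G p ∧ ∀ v, p v ∈ A i := by
  classical
  let ι : Type := (j : Fin (k + 1)) × {G : SimpleGraph (Fin j.val) // ∃ p, IsDrawing G p}
  have : Fintype ι := Fintype.ofFinite ι
  let e := Fintype.equivFin ι
  have hsh : ∀ i : Fin (Fintype.card ι), ∃ q : Fin (e.symm i).1.val → ℝ × ℝ,
      IsDrawing (e.symm i).2.1 q ∧ ∀ a b, (q a).1 = (q b).1 → a = b := by
    intro i
    obtain ⟨p, hp⟩ := (e.symm i).2.2
    exact hp.shear
  choose q hq1 hq2 using hsh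
  obtain ⟨t, ht, hC⟩ := exists_clu (fun i => (e.symm i).1.val) q hq2
  refine ⟨Fintype.card ι, _, hC, ?_, ?_⟩
  · intro i
    refine Finset.card_image_le.trans ?_
    simp only [Finset.card_univ, Fintype.card_fin]
    have := (e.symm i).1.2
    omega
  · intro j hj G hG
    have hi : e.symm (e ⟨⟨j, Nat.lt_succ_of_le hj⟩, ⟨G, hG⟩⟩) =
      (⟨⟨j, Nat.lt_succ_of_le hj⟩, ⟨G, hG⟩⟩ : ι) := e.symm_apply_apply _
    refine ⟨e ⟨⟨j, Nat.lt_succ_of_le hj⟩, ⟨G, hG⟩⟩, ?_⟩
    have key : ∀ (i : Fin (Fintype.card ι)) (x : ι), e.symm i = x → ∃ p : Fin x.1.val → ℝ × ℝ,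
        IsDrawing x.2.1 p ∧ ∀ v, p v ∈ (Finset.univ : Finset (Fin (e.symm i).1.val)).image
          (fun a => psi t i.val (q i a)) := by
      intro i x hx
      subst hx
      refine ⟨fun a => psi t i.val (q i a), ?_, ?_⟩
      · refine (hq1 i).affine ?_
        have : 0 < t ^ 3 := by positivity
        intro h0
        have h1 : t * t ^ 2 - 0 * (2 * (i.val : ℝ) * t) = t ^ 3 := by ring
        rw [h1] at h0
        linarith
      · intro v
        exact Finset.mem_image_of_mem _ (Finset.mem_univ v)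
    exact key _ _ hi

end Pool.Agent.R489.UPS
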