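import Pool.Agent.R489.UPS.Cluster

/-!
Counting: a subset of the clusters that supports all stacked triangulations is large.
-/

set_option autoImplicit false

namespace Pool.Agent.R489.UPS

open Finset

theorem Clu.uniq {ι : Type*} {A : ι → Finset (ℝ × ℝ)} (h : Clu A) {i l : ι} {p : ℝ × ℝ}
    (h1 : p ∈ A i) (h2 : p ∈ A l) : i = l := by
  by_contra hne
  obtain ⟨u, v, w, g1, g2⟩ := h.cut i
  have := g1 p h1
  have := g2 l (fun h => hne h.symm) p h2
  linarith

/-- extension of a history on `Fin m` to `ℕ` -/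
def ext {m : ℕ} (h : (i : Fin m) → Fin (2 * i.val + 1)) : ℕ → ℕ :=
  fun i => if hi : i < m then (h ⟨i, hi⟩).val else 0

theorem ext_lt {m : ℕ} (h : (i : Fin m) → Fin (2 * i.val + 1)) :
    ∀ i < m, ext h i < 2 * i + 1 := by
  intro i hi
  simp only [ext, dif_pos hi]
  exact (h ⟨i, hi⟩).2

theorem ext_inj {m : ℕ} {h h' : (i : Fin m) → Fin (2 * i.val + 1)}
    (he : ∀ i < m, ext h i = ext h' i) : h = h' := by
  funext i
  have := he i.val i.2
  simp only [ext, dif_pos i.2] at this
  exact Fin.ext this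

/-- the labelling of the stacked triangulation -/
def lb (m : ℕ) : ℕ → Fin (4 + m) := fun k => if hk : k < 4 + m then ⟨k, hk⟩ else ⟨0, by omega⟩

theorem lab (s : ℕ → ℕ) (m : ℕ) : Lab (T s m) s m (lb m) := by
  refine ⟨?_, ?_⟩
  · intro a b h
    obtain ⟨ha, hb⟩ := h.lt
    simp only [lb, dif_pos ha, dif_pos hb]
    exact h
  · intro a b ha hb h
    simp only [lb, dif_pos ha, dif_pos hb] at h
    exact congrArg Fin.val h

/-- injective maps into a finite set of points -/
noncomputable def embs (m : ℕ) (B : Finset (ℝ × ℝ)) : Finset (Fin (4 + m) → ℝ × ℝ) :=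
  by classical exact
    (Finset.univ : Finset (Fin (4 + m) ↪ ↥B)).image (fun f v => ((f v : ↥B) : ℝ × ℝ))

theorem mem_embs {m : ℕ} {B : Finset (ℝ × ℝ)} {φ : Fin (4 + m) → ℝ × ℝ}
    (hi : Function.Injective φ) (hB : ∀ v, φ v ∈ B) : φ ∈ embs m B := by
  classical
  simp only [embs, Finset.mem_image, Finset.mem_univ, true_and]
  exact ⟨⟨fun v => ⟨φ v, hB v⟩, fun a b h => hi (congrArg Subtype.val h)⟩, rfl⟩

theorem card_embs {m : ℕ} {B : Finset (ℝ × ℝ)} (hB : B.card ≤ m + 5) :
    (embs m B).card ≤ (m + 5).factorial := by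
  classical
  refine (Finset.card_image_le).trans ?_
  rw [Finset.card_univ, Fintype.card_embedding_eq, Fintype.card_coe, Fintype.card_fin]
  have h1 := Nat.factorial_mul_descFactorial (n := m + 5) (k := 4 + m) (by omega)
  have h2 : m + 5 - (4 + m) = 1 := by omega
  rw [h2, Nat.factorial_one, one_mul] at h1
  rw [← h1]
  exact Nat.descFactorial_le _ hB

theorem count {m : ℕ} {ι : Type*} {A : ι → Finset (ℝ × ℝ)} (hA : Clu A)
    (hk : ∀ i, (A i).card ≤ m + 4) {S : Finset (ℝ × ℝ)} (hS : ∀ p ∈ S, ∃ i, p ∈ A i)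
    (hu : ∀ s : ℕ → ℕ, (∀ i < m, s i < 2 * i + 1) →
      ∃ p : Fin (4 + m) → ℝ × ℝ, IsDrawing (T s m) p ∧ ∀ v, p v ∈ S) :
    ∏ i ∈ range m, (2 * i + 1) ≤ S.card ^ 2 * (m + 5).factorial := by
  classical
  have hu' : ∀ h : (i : Fin m) → Fin (2 * i.val + 1), ∃ p : Fin (4 + m) → ℝ × ℝ,
      IsDrawing (T (ext h) m) p ∧ ∀ v, p v ∈ S := fun h => hu _ (ext_lt h)
  choose φ hφ1 hφ2 using hu'
  have hinj : Function.Injective φ := by
    intro h h' e
    apply ext_inj
    have hd' := hφ1 h'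
    rw [← e] at hd'
    exact hist_unique (lab (ext h) m) (hφ1 h) (lab (ext h') m) hd' (ext_lt h) (ext_lt h')
  -- the cluster of a point
  let cl : ℝ × ℝ → Finset (ℝ × ℝ) := fun w => if h : ∃ i, w ∈ A i then A h.choose else ∅
  have hcl : ∀ i w, w ∈ A i → cl w = A i := by
    intro i w hw
    have h : ∃ i, w ∈ A i := ⟨i, hw⟩
    simp only [cl, dif_pos h]
    rw [hA.uniq h.choose_spec hw]
  have hclk : ∀ w, (cl w).card ≤ m + 4 := by
    intro w
    simp only [cl]
    split_ifs with h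
    · exact hk _
    · simp
  have hmem : ∀ h, φ h ∈ (S ×ˢ S).biUnion (fun wz => embs m (insert wz.2 (cl wz.1))) := by
    intro h
    have I := inv_all (lab (ext h) m) (hφ1 h) (ext_lt h) m le_rfl
    obtain ⟨x, y, z, hx, hy, hz, hC⟩ := I.hull
    have hXS : ∀ p ∈ (Finset.univ : Finset (Fin (4 + m))).image (φ h), p ∈ S := by
      intro p hp
      simp only [Finset.mem_image, Finset.mem_univ, true_and] at hp
      obtain ⟨v, rfl⟩ := hp
      exact hφ2 h v
    obtain ⟨i, ⟨w, hw, hwi⟩, z0, hz0, hall⟩ := hA.tri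
      (X := (Finset.univ : Finset (Fin (4 + m))).image (φ h))
      (fun p hp => hS p (hXS p hp))
      (by rw [Finset.card_image_of_injective _ (hφ1 h).1, Finset.card_univ, Fintype.card_fin]
          omega)
      (x := φ h (lb m x)) (y := φ h (lb m y)) (z := φ h (lb m z))
      (Finset.mem_image_of_mem _ (Finset.mem_univ _))
      (Finset.mem_image_of_mem _ (Finset.mem_univ _))
      (Finset.mem_image_of_mem _ (Finset.mem_univ _))
      (by
        intro w hw
        simp only [Finset.mem_image, Finset.mem_univ, true_and] at hw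
        obtain ⟨v, rfl⟩ := hw
        have h1 := hC v.val v.2
        have h2 : lb m v.val = v := by
          simp only [lb, dif_pos v.2]
        simp only [h2] at h1
        exact h1)
    rw [Finset.mem_biUnion]
    refine ⟨(w, z0), Finset.mem_product.2 ⟨hXS w hw, hXS z0 hz0⟩, ?_⟩
    apply mem_embs (hφ1 h).1
    intro v
    simp only [hcl i w hwi, Finset.mem_insert]
    exact hall _ (Finset.mem_image_of_mem _ (Finset.mem_univ _))
  have hcard : Fintype.card ((i : Fin m) → Fin (2 * i.val + 1)) =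
      ∏ i ∈ range m, (2 * i + 1) := by
    rw [Fintype.card_pi]
    simp only [Fintype.card_fin]
    exact Fin.prod_univ_eq_prod_range (fun i => 2 * i + 1) m
  rw [← hcard, ← Finset.card_univ, ← Finset.card_image_of_injective _ hinj]
  calc ((Finset.univ : Finset ((i : Fin m) → Fin (2 * i.val + 1))).image φ).card
      ≤ ((S ×ˢ S).biUnion (fun wz => embs m (insert wz.2 (cl wz.1)))).card := by
        apply Finset.card_le_card
        intro p hp
        simp only [Finset.mem_image, Finset.mem_univ, true_and] at hp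
        obtain ⟨h, rfl⟩ := hp
        exact hmem h
    _ ≤ (S ×ˢ S).card * (m + 5).factorial := by
        apply Finset.card_biUnion_le_card_mul
        intro wz _
        apply card_embs
        refine (Finset.card_insert_le _ _).trans ?_
        have := hclk wz.1
        omega
    _ = S.card ^ 2 * (m + 5).factorial := by
        rw [Finset.card_product, sq]

theorem prod_lower (m : ℕ) :
    2 ^ m * m.factorial ≤ (2 * m + 1) * ∏ i ∈ range m, (2 * i + 1) := by
  induction m with
  | zero => simp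
  | succ m ih =>
    rw [Finset.prod_range_succ, Nat.factorial_succ, pow_succ]
    calc 2 ^ m * 2 * ((m + 1) * m.factorial) = 2 * (m + 1) * (2 ^ m * m.factorial) := by ring
      _ ≤ 2 * (m + 1) * ((2 * m + 1) * ∏ i ∈ range m, (2 * i + 1)) := Nat.mul_le_mul_left _ ih
      _ = 2 * (m + 1) * ((∏ i ∈ range m, (2 * i + 1)) * (2 * m + 1)) := by ring
      _ ≤ (2 * (m + 1) + 1) * ((∏ i ∈ range m, (2 * i + 1)) * (2 * m + 1)) :=
          Nat.mul_le_mul_right _ (by omega)

theorem final_bound {m n : ℕ}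
    (h : ∏ i ∈ range m, (2 * i + 1) ≤ n ^ 2 * (m + 5).factorial) :
    2 ^ (m + 4) ≤ 32 * (m + 4) ^ 6 * n ^ 2 := by
  have h1 := prod_lower m
  have h2 : (m + 5).factorial = (m + 5) * (m + 4) * (m + 3) * (m + 2) * (m + 1) * m.factorial := by
    simp only [Nat.factorial_succ]; ring
  have h3 : 2 ^ m * m.factorial ≤
      ((2 * m + 1) * (m + 5) * (m + 4) * (m + 3) * (m + 2) * (m + 1) * n ^ 2) * m.factorial := by
    calc 2 ^ m * m.factorial ≤ (2 * m + 1) * ∏ i ∈ range m, (2 * i + 1) := h1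
      _ ≤ (2 * m + 1) * (n ^ 2 * (m + 5).factorial) := Nat.mul_le_mul_left _ h
      _ = _ := by rw [h2]; ring
  have h4 : 2 ^ m ≤ (2 * m + 1) * (m + 5) * (m + 4) * (m + 3) * (m + 2) * (m + 1) * n ^ 2 :=
    Nat.le_of_mul_le_mul_right h3 (Nat.factorial_pos m)
  have h5 : (2 * m + 1) * (m + 5) * (m + 4) * (m + 3) * (m + 2) * (m + 1) ≤ 2 * (m + 4) ^ 6 := by
    have a1 : 2 * m + 1 ≤ 2 * (m + 4) := by omega
    have a2 : (m + 5) * (m + 3) ≤ (m + 4) * (m + 4) := by nlinarith
    have a3 : (m + 2) * (m + 1) ≤ (m + 4) * (m + 4) := by nlinarith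
    calc (2 * m + 1) * (m + 5) * (m + 4) * (m + 3) * (m + 2) * (m + 1)
        = (2 * m + 1) * ((m + 5) * (m + 3)) * ((m + 2) * (m + 1)) * (m + 4) := by ring
      _ ≤ (2 * (m + 4)) * ((m + 4) * (m + 4)) * ((m + 4) * (m + 4)) * (m + 4) := by gcongr
      _ = 2 * (m + 4) ^ 6 := by ring
  calc 2 ^ (m + 4) = 16 * 2 ^ m := by rw [pow_add]; norm_num; ring
    _ ≤ 16 * ((2 * m + 1) * (m + 5) * (m + 4) * (m + 3) * (m + 2) * (m + 1) * n ^ 2) :=
        Nat.mul_le_mul_left _ h4
    _ ≤ 16 * (2 * (m + 4) ^ 6 * n ^ 2) := by gcongr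
    _ = 32 * (m + 4) ^ 6 * n ^ 2 := by ring

end Pool.Agent.R489.UPS
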