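import Pool.Agent.R489.UPS.Hull

/-!
Every stacked triangulation has a straight-line drawing.
-/

set_option autoImplicit false

namespace Pool.Agent.R489.UPS

/-- a drawing of the stacked triangulation whose faces are empty -/
structure Good (s : ℕ → ℕ) (m : ℕ) (P : ℕ → ℝ × ℝ) : Prop where
  inj : ∀ a b, a < 4 + m → b < 4 + m → P a = P b → a = b
  off : ∀ a b c, TAdj s m a b → c < 4 + m → c ≠ a → c ≠ b → P c ∉ segment ℝ (P a) (P b)
  nc : ∀ a b c d, TAdj s m a b → TAdj s m c d → a ≠ c → a ≠ d → b ≠ c → b ≠ d →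
    ∀ p, p ∈ segment ℝ (P a) (P b) → p ∉ segment ℝ (P c) (P d)
  det : ∀ j < 2 * m + 1, det (P (F s m j).1) (P (F s m j).2.1) (P (F s m j).2.2.1) ≠ 0
  vtx : ∀ j < 2 * m + 1, ∀ w < 4 + m, ¬ TI P (F s m j) (P w)
  edg : ∀ j < 2 * m + 1, ∀ a b, TAdj s m a b → ∀ p ∈ segment ℝ (P a) (P b),
    ¬ TI P (F s m j) p
  dis : ∀ j < 2 * m + 1, ∀ j' < 2 * m + 1, j ≠ j' → ∀ p, TI P (F s m j) p →
    ¬ TI P (F s m j') p

theorem not_seg_of_det {p q r : ℝ × ℝ} (h : det p q r ≠ 0) : r ∉ segment ℝ p q := by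
  rw [seg_mem_iff]
  rintro ⟨t, _, _, e1, e2⟩
  apply h
  simp only [det, e1, e2]; ring

theorem disj_of_det {p q r s x : ℝ × ℝ} (h : 0 < det p q r * det p q s)
    (h1 : x ∈ segment ℝ p q) : x ∉ segment ℝ r s := by
  rw [seg_mem_iff] at h1 ⊢
  rintro ⟨t, t0, t1, e1, e2⟩
  obtain ⟨u, _, _, f1, f2⟩ := h1
  have h0 : det p q x = 0 := by simp only [det, f1, f2]; ring
  have h3 : det p q x = (1 - t) * det p q r + t * det p q s := by
    simp only [det, e1, e2]; ring
  rw [h0] at h3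
  rcases lt_trichotomy (det p q r) 0 with hr | hr | hr
  · have hs : det p q s < 0 := by nlinarith
    rcases lt_or_ge t 1 with h5 | h5
    · nlinarith
    · have : t = 1 := le_antisymm t1 h5
      subst this; linarith
  · rw [hr] at h; simp at h
  · have hs : 0 < det p q s := by nlinarith
    rcases lt_or_ge t 1 with h5 | h5
    · nlinarith
    · have : t = 1 := le_antisymm t1 h5
      subst this; linarith

theorem seg_share {a b c p : ℝ × ℝ} (hb : b ∉ segment ℝ a c) (hc : c ∉ segment ℝ a b)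
    (h1 : p ∈ segment ℝ a b) (h2 : p ∈ segment ℝ a c) : p = a := by
  rw [seg_mem_iff] at h1 h2
  obtain ⟨t, t0, t1, e1, e2⟩ := h1
  obtain ⟨u, u0, u1, f1, f2⟩ := h2
  rcases eq_or_lt_of_le t0 with ht | ht
  · subst ht
    ext
    · rw [e1]; ring
    · rw [e2]; ring
  rcases eq_or_lt_of_le u0 with hu | hu
  · subst hu
    ext
    · rw [f1]; ring
    · rw [f2]; ring
  exfalso
  rcases le_total t u with h | h
  · apply hc
    rw [seg_mem_iff]
    refine ⟨t / u, by positivity, by rw [div_le_one hu]; exact h, ?_, ?_⟩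
    · have : u * (c.1 - a.1) = t * (b.1 - a.1) := by linarith
      field_simp; linarith
    · have : u * (c.2 - a.2) = t * (b.2 - a.2) := by linarith
      field_simp; linarith
  · apply hb
    rw [seg_mem_iff]
    refine ⟨u / t, by positivity, by rw [div_le_one ht]; exact h, ?_, ?_⟩
    · have : u * (c.1 - a.1) = t * (b.1 - a.1) := by linarith
      field_simp; linarith
    · have : u * (c.2 - a.2) = t * (b.2 - a.2) := by linarith
      field_simp; linarith

/-- half-open segment from an interior point to a corner -/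
theorem seg_in {x y z g p : ℝ × ℝ} (hg : Inside x y z g) (hp : p ∈ segment ℝ g x) :
    p = x ∨ Inside x y z p := by
  obtain ⟨hA, a, b, c, ha, hb, hc, hs, e1, e2⟩ := inside_iff.1 hg
  rw [seg_mem_iff] at hp
  obtain ⟨t, t0, t1, f1, f2⟩ := hp
  rcases eq_or_lt_of_le t1 with h | h
  · left; subst h
    ext
    · rw [f1]; ring
    · rw [f2]; ring
  · right
    rw [inside_iff]
    have h' : 0 < 1 - t := by linarith
    refine ⟨hA, (1 - t) * a + t, (1 - t) * b, (1 - t) * c, by positivity, by positivity,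
      by positivity, ?_, ?_, ?_⟩
    · linear_combination (1 - t) * hs
    · rw [f1, e1]; ring
    · rw [f2, e2]; ring

theorem seg_not_sub {x y z g p : ℝ × ℝ} (hg : Inside x y z g) (hp : p ∈ segment ℝ g x) :
    ¬ Inside x y g p ∧ ¬ Inside y z g p ∧ ¬ Inside z x g p := by
  rw [seg_mem_iff] at hp
  obtain ⟨t, t0, t1, f1, f2⟩ := hp
  refine ⟨?_, ?_, ?_⟩
  · rintro ⟨_, _, h3⟩
    have : det g x p = 0 := by simp only [det, f1, f2]; ring
    rw [this] at h3; simp at h3
  · rintro ⟨_, h2, _⟩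
    obtain ⟨g1, g2, g3⟩ := hg
    have e : det z g p = - (t * det z x g) := by simp only [det, f1, f2]; ring
    rw [e] at h2
    have h5 : 0 < det y z g * det z x g := pos_of_scaled g2 g3
    nlinarith
  · rintro ⟨_, h2, _⟩
    have : det x g p = 0 := by simp only [det, f1, f2]; ring
    rw [this] at h2; simp at h2

theorem centroid_inside {x y z : ℝ × ℝ} (h : det x y z ≠ 0) :
    Inside x y z ((x.1 + y.1 + z.1) / 3, (x.2 + y.2 + z.2) / 3) := by
  rw [inside_iff]
  exact ⟨h, 1/3, 1/3, 1/3, by norm_num, by norm_num, by norm_num, by norm_num,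
    by simp only; ring, by simp only; ring⟩

/-- the starting drawing of `K4` -/
noncomputable def P0 : ℕ → ℝ × ℝ := fun k =>
  if k = 0 then (0, 0) else if k = 1 then (4, 0) else if k = 2 then (2, 1) else (2, 4)

theorem P0_0 : P0 0 = (0, 0) := by simp [P0]
theorem P0_1 : P0 1 = (4, 0) := by simp [P0]
theorem P0_2 : P0 2 = (2, 1) := by simp [P0]
theorem P0_3 : P0 3 = (2, 4) := by simp [P0]

theorem good_zero (s : ℕ → ℕ) : Good s 0 P0 := by
  have hadj : ∀ a b, TAdj s 0 a b → a < 4 ∧ b < 4 ∧ a ≠ b := by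
    intro a b h
    rcases h with h | ⟨i, hi, _⟩
    · exact h
    · omega
  refine ⟨?_, ?_, ?_, ?_, ?_, ?_, ?_⟩
  · intro a b ha hb h
    simp only [Nat.add_zero] at ha hb
    interval_cases a <;> interval_cases b <;> first | rfl | (exfalso; simp [P0, Prod.ext_iff] at h)
  · intro a b c hab hc h1 h2
    obtain ⟨ha, hb, hne⟩ := hadj a b hab
    simp only [Nat.add_zero] at hc
    apply not_seg_of_det
    interval_cases a <;> interval_cases b <;> interval_cases c <;>
      first | exact absurd rfl hne | exact absurd rfl h1 | exact absurd rfl h2 |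
        (simp only [P0_0, P0_1, P0_2, P0_3, det]; norm_num)
  · intro a b c d hab hcd h1 h2 h3 h4 p hp
    obtain ⟨ha, hb, hne⟩ := hadj a b hab
    obtain ⟨hc, hd, hne'⟩ := hadj c d hcd
    have key : 0 < det (P0 a) (P0 b) (P0 c) * det (P0 a) (P0 b) (P0 d) ∨
        0 < det (P0 c) (P0 d) (P0 a) * det (P0 c) (P0 d) (P0 b) := by
      interval_cases a <;> interval_cases b
      all_goals try exact absurd rfl hne
      all_goals interval_cases c
      all_goals try exact absurd rfl h1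
      all_goals try exact absurd rfl h3
      all_goals interval_cases d
      all_goals try exact absurd rfl h2
      all_goals try exact absurd rfl h4
      all_goals try exact absurd rfl hne'
      all_goals first
        | (left; simp only [P0_0, P0_1, P0_2, P0_3, det]; norm_num; done)
        | (right; simp only [P0_0, P0_1, P0_2, P0_3, det]; norm_num; done)
    rcases key with h | h
    · exact disj_of_det h hp
    · intro hp'
      exact disj_of_det h hp' hp
  · intro j hj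
    simp only [F]
    simp only [P0_0, P0_1, P0_2, det]
    norm_num
  · intro j hj w hw
    simp only [F, TI, Inside]
    simp only [Nat.add_zero] at hw
    interval_cases w <;> simp only [P0_0, P0_1, P0_2, P0_3, det] <;> norm_num
  · intro j hj a b hab p hp
    obtain ⟨ha, hb, hne⟩ := hadj a b hab
    rw [seg_mem_iff] at hp
    obtain ⟨t, t0, t1, e1, e2⟩ := hp
    simp only [F, TI, Inside]
    rintro ⟨g1, g2, g3⟩
    obtain ⟨p1, p2⟩ := p
    simp only [P0_0, P0_1, P0_2, det] at g1 g2 g3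
    simp only at e1 e2
    subst e1
    subst e2
    interval_cases a <;> interval_cases b
    all_goals try exact absurd rfl hne
    all_goals (simp only [P0_0, P0_1, P0_2, P0_3] at g1 g2 g3; nlinarith)
  · intro j hj j' hj' hne
    omega

theorem not_inside_z {x y z : ℝ × ℝ} : ¬ Inside x y z z := by
  rintro ⟨_, h, _⟩
  have : det y z z = 0 := by simp only [det]; ring
  rw [this] at h; simp at h

theorem good_step {s : ℕ → ℕ} {m : ℕ} {P P' : ℕ → ℝ × ℝ} (hs : s m < 2 * m + 1)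
    (G : Good s m P) (hP : ∀ k < 4 + m, P' k = P k)
    (hg : TI P (F s m (s m)) (P' (4 + m))) : Good s (m + 1) P' := by
  obtain ⟨l1, l2, l3, _⟩ := F_lt (s := s) m (s m)
  -- classification of the points on edges
  have hE : ∀ a b p, TAdj s (m + 1) a b → p ∈ segment ℝ (P' a) (P' b) →
      (TAdj s m a b ∧ p ∈ segment ℝ (P a) (P b)) ∨
      (∃ c, (c = (F s m (s m)).1 ∨ c = (F s m (s m)).2.1 ∨ c = (F s m (s m)).2.2.1) ∧
        ((a = 4 + m ∧ b = c) ∨ (a = c ∧ b = 4 + m)) ∧
        p ∈ segment ℝ (P' (4 + m)) (P c)) := by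
    intro a b p h hp
    rcases TAdj_succ.1 h with h | ⟨h1, h2⟩ | ⟨h1, h2⟩
    · left
      obtain ⟨ha, hb⟩ := h.lt
      rw [hP a ha, hP b hb] at hp
      exact ⟨h, hp⟩
    · right
      refine ⟨b, h2, Or.inl ⟨h1, rfl⟩, ?_⟩
      have hb : b < 4 + m := by rcases h2 with h2 | h2 | h2 <;> omega
      rw [h1, hP b hb] at hp
      exact hp
    · right
      refine ⟨a, h2, Or.inr ⟨rfl, h1⟩, ?_⟩
      have ha : a < 4 + m := by rcases h2 with h2 | h2 | h2 <;> omega
      rw [h1, hP a ha, segment_symm] at hp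
      exact hp
  have hN : ∀ c p, (c = (F s m (s m)).1 ∨ c = (F s m (s m)).2.1 ∨ c = (F s m (s m)).2.2.1) →
      p ∈ segment ℝ (P' (4 + m)) (P c) → (p = P c ∨ TI P (F s m (s m)) p) ∧
      (¬ Inside (P (F s m (s m)).1) (P (F s m (s m)).2.1) (P' (4 + m)) p ∧
       ¬ Inside (P (F s m (s m)).2.1) (P (F s m (s m)).2.2.1) (P' (4 + m)) p ∧
       ¬ Inside (P (F s m (s m)).2.2.1) (P (F s m (s m)).1) (P' (4 + m)) p) := by
    intro c p hc hp
    rcases hc with rfl | rfl | rfl
    · refine ⟨seg_in hg hp, seg_not_sub hg hp⟩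
    · obtain ⟨n1, n2, n3⟩ := seg_not_sub (Inside.rot hg) hp
      refine ⟨?_, n3, n1, n2⟩
      rcases seg_in (Inside.rot hg) hp with h | h
      · exact Or.inl h
      · exact Or.inr (Inside.rot (Inside.rot h))
    · obtain ⟨n1, n2, n3⟩ := seg_not_sub (Inside.rot (Inside.rot hg)) hp
      refine ⟨?_, n2, n3, n1⟩
      rcases seg_in (Inside.rot (Inside.rot hg)) hp with h | h
      · exact Or.inl h
      · exact Or.inr (Inside.rot h)
  obtain ⟨⟨_, b1⟩, ⟨_, b2⟩, ⟨_, b3⟩, d12, d23, d31⟩ := in_case hg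
  have hv1 : P' (F s m (s m)).1 = P (F s m (s m)).1 := hP _ l1
  have hv2 : P' (F s m (s m)).2.1 = P (F s m (s m)).2.1 := hP _ l2
  have hv3 : P' (F s m (s m)).2.2.1 = P (F s m (s m)).2.2.1 := hP _ l3
  -- classification of the faces
  have hF : ∀ j < 2 * (m + 1) + 1, (∀ p, TI P' (F s (m + 1) j) p ↔
        Inside (P (F s m (s m)).1) (P (F s m (s m)).2.1) (P' (4 + m)) p) ∧
        F s (m + 1) j = ((F s m (s m)).1, (F s m (s m)).2.1, 4 + m, (F s m (s m)).2.2.1) ∨
      (∀ p, TI P' (F s (m + 1) j) p ↔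
        Inside (P (F s m (s m)).2.1) (P (F s m (s m)).2.2.1) (P' (4 + m)) p) ∧
        F s (m + 1) j = ((F s m (s m)).2.1, (F s m (s m)).2.2.1, 4 + m, (F s m (s m)).1) ∨
      (∀ p, TI P' (F s (m + 1) j) p ↔
        Inside (P (F s m (s m)).2.2.1) (P (F s m (s m)).1) (P' (4 + m)) p) ∧
        F s (m + 1) j = ((F s m (s m)).2.2.1, (F s m (s m)).1, 4 + m, (F s m (s m)).2.1) ∨
      (j < 2 * m + 1 ∧ j ≠ s m ∧ F s (m + 1) j = F s m j ∧
        (∀ p, TI P' (F s (m + 1) j) p ↔ TI P (F s m j) p)) := by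
    intro j hj
    rcases face_cases s m j hj with h | h | h | ⟨h1, h2, h3⟩
    · left
      refine ⟨fun p => ?_, h⟩
      rw [h]; simp only [TI, hv1, hv2]
    · right; left
      refine ⟨fun p => ?_, h⟩
      rw [h]; simp only [TI, hv2, hv3]
    · right; right; left
      refine ⟨fun p => ?_, h⟩
      rw [h]; simp only [TI, hv3, hv1]
    · right; right; right
      refine ⟨h1, h2, h3, fun p => ?_⟩
      obtain ⟨k1, k2, k3, _⟩ := F_lt (s := s) m j
      rw [h3]; simp only [TI, hP _ k1, hP _ k2, hP _ k3]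
  have hgq : ∀ w < 4 + m, P w ≠ P' (4 + m) := by
    intro w hw h
    apply G.vtx _ hs w hw
    rw [h]; exact hg
  refine ⟨?_, ?_, ?_, ?_, ?_, ?_, ?_⟩
  · intro a b ha hb h
    rcases Nat.lt_or_ge a (4 + m) with h1 | h1 <;> rcases Nat.lt_or_ge b (4 + m) with h2 | h2
    · rw [hP a h1, hP b h2] at h; exact G.inj a b h1 h2 h
    · have : b = 4 + m := by omega
      subst this
      rw [hP a h1] at h
      exact absurd h (hgq a h1)
    · have : a = 4 + m := by omega
      subst this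
      rw [hP b h2] at h
      exact absurd h.symm (hgq b h2)
    · omega
  · intro a b c hab hc h1 h2 hp
    rcases hE a b _ hab hp with ⟨h3, h4⟩ | ⟨d, h3, h4, h5⟩
    · rcases Nat.lt_or_ge c (4 + m) with hc' | hc'
      · rw [hP c hc'] at h4
        exact G.off a b c h3 hc' h1 h2 h4
      · have : c = 4 + m := by omega
        subst this
        exact G.edg _ hs a b h3 _ h4 hg
    · have hcv : c ≠ 4 + m ∧ c ≠ d := by
        rcases h4 with ⟨e1, e2⟩ | ⟨e1, e2⟩
        · exact ⟨e1 ▸ h1, e2 ▸ h2⟩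
        · exact ⟨e2 ▸ h2, e1 ▸ h1⟩
      have hc' : c < 4 + m := by omega
      have hd' : d < 4 + m := by rcases h3 with h3 | h3 | h3 <;> omega
      rw [hP c hc'] at h5
      rcases (hN d _ h3 h5).1 with h | h
      · exact hcv.2 (G.inj c d hc' hd' h)
      · exact G.vtx _ hs c hc' h
  · intro a b c d hab hcd h1 h2 h3 h4 p hp hp'
    rcases hE a b p hab hp with ⟨g1, g2⟩ | ⟨e, g1, g2, g3⟩ <;>
      rcases hE c d p hcd hp' with ⟨g1', g2'⟩ | ⟨e', g1', g2', g3'⟩
    · exact G.nc a b c d g1 g1' h1 h2 h3 h4 p g2 g2'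
    · have he : e' < 4 + m := by rcases g1' with h | h | h <;> omega
      rcases (hN e' p g1' g3').1 with h | h
      · rw [h] at g2
        have : e' ≠ a ∧ e' ≠ b := by
          rcases g2' with ⟨i1, i2⟩ | ⟨i1, i2⟩
          · exact ⟨i2 ▸ h2.symm, i2 ▸ h4.symm⟩
          · exact ⟨i1 ▸ h1.symm, i1 ▸ h3.symm⟩
        exact G.off a b e' g1 he this.1 this.2 g2
      · exact G.edg _ hs a b g1 p g2 h
    · have he : e < 4 + m := by rcases g1 with h | h | h <;> omega
      rcases (hN e p g1 g3).1 with h | h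
      · rw [h] at g2'
        have : e ≠ c ∧ e ≠ d := by
          rcases g2 with ⟨i1, i2⟩ | ⟨i1, i2⟩
          · exact ⟨i2 ▸ h3, i2 ▸ h4⟩
          · exact ⟨i1 ▸ h1, i1 ▸ h2⟩
        exact G.off c d e g1' he this.1 this.2 g2'
      · exact G.edg _ hs c d g1' p g2' h
    · rcases g2 with ⟨i1, i2⟩ | ⟨i1, i2⟩ <;> rcases g2' with ⟨j1, j2⟩ | ⟨j1, j2⟩
      · exact h1 (i1.trans j1.symm)
      · exact h2 (i1.trans j2.symm)
      · exact h3 (i2.trans j1.symm)
      · exact h4 (i2.trans j2.symm)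
  · intro j hj
    obtain ⟨i1, i2, i3⟩ := hg
    have nz : ∀ {u t : ℝ}, 0 < u * t → t ≠ 0 := by
      intro u t h h0
      rw [h0] at h; simp at h
    rcases hF j hj with ⟨_, h⟩ | ⟨_, h⟩ | ⟨_, h⟩ | ⟨h1, h2, h3, _⟩
    · rw [h]; simp only [hv1, hv2]; exact nz i1
    · rw [h]; simp only [hv2, hv3]; exact nz i2
    · rw [h]; simp only [hv3, hv1]; exact nz i3
    · obtain ⟨k1, k2, k3, _⟩ := F_lt (s := s) m j
      rw [h3, hP _ k1, hP _ k2, hP _ k3]
      exact G.det j h1
  · intro j hj w hw hT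
    rcases Nat.lt_or_ge w (4 + m) with hw' | hw'
    · rw [hP w hw'] at hT
      rcases hF j hj with ⟨h, _⟩ | ⟨h, _⟩ | ⟨h, _⟩ | ⟨h1, h2, h3, h⟩
      · exact G.vtx _ hs w hw' (b1 _ ((h _).1 hT))
      · exact G.vtx _ hs w hw' (b2 _ ((h _).1 hT))
      · exact G.vtx _ hs w hw' (b3 _ ((h _).1 hT))
      · exact G.vtx _ h1 w hw' ((h _).1 hT)
    · have : w = 4 + m := by omega
      subst this
      rcases hF j hj with ⟨h, _⟩ | ⟨h, _⟩ | ⟨h, _⟩ | ⟨h1, h2, h3, h⟩
      · exact not_inside_z ((h _).1 hT)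
      · exact not_inside_z ((h _).1 hT)
      · exact not_inside_z ((h _).1 hT)
      · exact G.dis _ h1 _ hs h2 _ ((h _).1 hT) hg
  · intro j hj a b hab p hp hT
    rcases hE a b p hab hp with ⟨g1, g2⟩ | ⟨e, g1, g2, g3⟩
    · rcases hF j hj with ⟨h, _⟩ | ⟨h, _⟩ | ⟨h, _⟩ | ⟨h1, h2, h3, h⟩
      · exact G.edg _ hs a b g1 p g2 (b1 _ ((h _).1 hT))
      · exact G.edg _ hs a b g1 p g2 (b2 _ ((h _).1 hT))
      · exact G.edg _ hs a b g1 p g2 (b3 _ ((h _).1 hT))
      · exact G.edg _ h1 a b g1 p g2 ((h _).1 hT)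
    · obtain ⟨n0, n1, n2, n3⟩ := hN e p g1 g3
      rcases hF j hj with ⟨h, _⟩ | ⟨h, _⟩ | ⟨h, _⟩ | ⟨h1, h2, h3, h⟩
      · exact n1 ((h _).1 hT)
      · exact n2 ((h _).1 hT)
      · exact n3 ((h _).1 hT)
      · have hT' := (h _).1 hT
        rcases n0 with n0 | n0
        · have he : e < 4 + m := by rcases g1 with h | h | h <;> omega
          rw [n0] at hT'
          exact G.vtx _ h1 e he hT'
        · exact G.dis _ h1 _ hs h2 _ hT' n0
  · intro j hj j' hj' hne p hT hT'
    have hne' : F s (m + 1) j ≠ F s (m + 1) j' := fun h =>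
      hne (F_dist (m + 1) j j' hj hj' (by rw [h]))
    rcases hF j hj with ⟨h, e⟩ | ⟨h, e⟩ | ⟨h, e⟩ | ⟨h1, h2, h3, h⟩ <;>
      rcases hF j' hj' with ⟨h', e'⟩ | ⟨h', e'⟩ | ⟨h', e'⟩ | ⟨h1', h2', h3', h'⟩
    · exact hne' (e.trans e'.symm)
    · exact d12 p ⟨(h _).1 hT, (h' _).1 hT'⟩
    · exact d31 p ⟨(h' _).1 hT', (h _).1 hT⟩
    · exact G.dis _ h1' _ hs h2' _ ((h' _).1 hT') (b1 _ ((h _).1 hT))
    · exact d12 p ⟨(h' _).1 hT', (h _).1 hT⟩
    · exact hne' (e.trans e'.symm)
    · exact d23 p ⟨(h _).1 hT, (h' _).1 hT'⟩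
    · exact G.dis _ h1' _ hs h2' _ ((h' _).1 hT') (b2 _ ((h _).1 hT))
    · exact d31 p ⟨(h _).1 hT, (h' _).1 hT'⟩
    · exact d23 p ⟨(h' _).1 hT', (h _).1 hT⟩
    · exact hne' (e.trans e'.symm)
    · exact G.dis _ h1' _ hs h2' _ ((h' _).1 hT') (b3 _ ((h _).1 hT))
    · exact G.dis _ h1 _ hs h2 _ ((h _).1 hT) (b1 _ ((h' _).1 hT'))
    · exact G.dis _ h1 _ hs h2 _ ((h _).1 hT) (b2 _ ((h' _).1 hT'))
    · exact G.dis _ h1 _ hs h2 _ ((h _).1 hT) (b3 _ ((h' _).1 hT'))
    · exact G.dis _ h1 _ h1' hne _ ((h _).1 hT) ((h' _).1 hT')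

theorem good_all {s : ℕ → ℕ} : ∀ m, (∀ i < m, s i < 2 * i + 1) → ∃ P, Good s m P := by
  intro m
  induction m with
  | zero => intro _; exact ⟨P0, good_zero s⟩
  | succ m ih =>
    intro hs
    obtain ⟨P, G⟩ := ih (fun i hi => hs i (by omega))
    have hd := G.det (s m) (hs m (Nat.lt_succ_self m))
    obtain ⟨g, hg⟩ : ∃ g, TI P (F s m (s m)) g := ⟨_, centroid_inside hd⟩
    refine ⟨Function.update P (4 + m) g, good_step (hs m (Nat.lt_succ_self m)) G
      (fun k hk => Function.update_of_ne (by omega) _ _) ?_⟩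
    rw [Function.update_self]
    exact hg

/-- the stacked triangulation with history `s` -/
def T (s : ℕ → ℕ) (m : ℕ) : SimpleGraph (Fin (4 + m)) where
  Adj a b := TAdj s m a.val b.val
  symm := ⟨fun _ _ h => h.symm⟩
  loopless := ⟨fun _ h => h.ne rfl⟩

theorem T_planar {s : ℕ → ℕ} {m : ℕ} (hs : ∀ i < m, s i < 2 * i + 1) :
    ∃ p, IsDrawing (T s m) p := by
  obtain ⟨P, G⟩ := good_all m hs
  refine ⟨fun a => P a.val, ?_, ?_, ?_⟩
  · intro a b h
    exact Fin.ext (G.inj _ _ a.2 b.2 h)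
  · intro a b c hab h1 h2
    exact G.off _ _ _ hab c.2 (fun h => h1 (Fin.ext h)) (fun h => h2 (Fin.ext h))
  · intro a b c d hab hcd hne p ⟨hp, hp'⟩
    have share : ∀ a b c : Fin (4 + m), (T s m).Adj a b → (T s m).Adj a c → b ≠ c →
        p ∈ segment ℝ (P a.val) (P b.val) → p ∈ segment ℝ (P a.val) (P c.val) →
        p = P a.val := by
      intro a b c hab hac hbc h1 h2
      refine seg_share ?_ ?_ h1 h2
      · exact G.off _ _ _ hac b.2 (fun h => hab.ne' (Fin.ext h)) (fun h => hbc (Fin.ext h))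
      · exact G.off _ _ _ hab c.2 (fun h => hac.ne' (Fin.ext h)) (fun h => hbc (Fin.ext h.symm))
    simp only [Set.mem_inter_iff, Set.mem_insert_iff, Set.mem_singleton_iff]
    by_cases h1 : a = c
    · subst h1
      have hbd : b ≠ d := by rintro rfl; exact hne rfl
      have := share a b d hab hcd hbd hp hp'
      exact ⟨Or.inl this, Or.inl this⟩
    by_cases h2 : a = d
    · subst h2
      have hbc : b ≠ c := by rintro rfl; exact hne Sym2.eq_swap
      rw [segment_symm] at hp'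
      have := share a b c hab hcd.symm hbc hp hp'
      exact ⟨Or.inl this, Or.inr this⟩
    by_cases h3 : b = c
    · subst h3
      rw [segment_symm] at hp
      have := share b a d hab.symm hcd h2 hp hp'
      exact ⟨Or.inr this, Or.inl this⟩
    by_cases h4 : b = d
    · subst h4
      rw [segment_symm] at hp hp'
      have := share b a c hab.symm hcd.symm h1 hp hp'
      exact ⟨Or.inr this, Or.inr this⟩
    · exfalso
      exact G.nc _ _ _ _ hab hcd (fun h => h1 (Fin.ext h)) (fun h => h2 (Fin.ext h))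
        (fun h => h3 (Fin.ext h)) (fun h => h4 (Fin.ext h)) p hp hp'

end Pool.Agent.R489.UPS
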