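import Mathlib

/-!
Planar geometry used for MP_87448f: orientation determinants, open triangles,
straight-line drawings, the `K4` and `K5` minus an edge lemmas.
-/

set_option autoImplicit false

namespace Pool.Agent.R489.UPS

/-- orientation determinant of three points of the plane -/
def det (p q r : ℝ × ℝ) : ℝ := (q.1 - p.1) * (r.2 - p.2) - (q.2 - p.2) * (r.1 - p.1)

/-- `p` lies in the open triangle with corners `x`, `y`, `z` -/
def Inside (x y z p : ℝ × ℝ) : Prop :=
  0 < det x y z * det x y p ∧ 0 < det x y z * det y z p ∧ 0 < det x y z * det z x p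

theorem seg_mem_iff (a b x : ℝ × ℝ) :
    x ∈ segment ℝ a b ↔ ∃ t : ℝ, 0 ≤ t ∧ t ≤ 1 ∧ x.1 = a.1 + t * (b.1 - a.1) ∧
      x.2 = a.2 + t * (b.2 - a.2) := by
  constructor
  · rintro ⟨s, t, hs, ht, hst, rfl⟩
    refine ⟨t, ht, by linarith, ?_, ?_⟩
    · simp only [Prod.fst_add, Prod.smul_fst, smul_eq_mul]
      have : s = 1 - t := by linarith
      subst this; ring
    · simp only [Prod.snd_add, Prod.smul_snd, smul_eq_mul]
      have : s = 1 - t := by linarith
      subst this; ring
  · rintro ⟨t, h0, h1, h2, h3⟩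
    refine ⟨1 - t, t, by linarith, h0, by ring, ?_⟩
    ext
    · simp only [Prod.fst_add, Prod.smul_fst, smul_eq_mul]; rw [h2]; ring
    · simp only [Prod.snd_add, Prod.smul_snd, smul_eq_mul]; rw [h3]; ring

/-- two segments that cross properly meet -/
theorem seg_cross {p q r s : ℝ × ℝ} (h1 : det p q r * det p q s < 0)
    (h2 : det r s p * det r s q < 0) :
    (segment ℝ p q ∩ segment ℝ r s).Nonempty := by
  set D : ℝ := det r s p - det r s q with hD
  have hDne : D ≠ 0 := by
    intro h
    have : det r s p = det r s q := by linarith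
    rw [this] at h2
    nlinarith [mul_self_nonneg (det r s q)]
  have hrel : det p q r - det p q s = - D := by
    simp only [hD, det]; ring
  have key : ∀ a b : ℝ, a * b < 0 → 0 ≤ a / (a - b) ∧ a / (a - b) ≤ 1 := by
    intro a b hab
    rcases lt_trichotomy a 0 with ha | ha | ha
    · have hb : 0 < b := by nlinarith
      constructor
      · apply div_nonneg_of_nonpos ha.le; linarith
      · rw [div_le_one_of_neg (by linarith)]; linarith
    · subst ha; simp at hab
    · have hb : b < 0 := by nlinarith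
      constructor
      · apply div_nonneg ha.le; linarith
      · rw [div_le_one (by linarith)]; linarith
  obtain ⟨ht0, ht1⟩ := key _ _ h2
  obtain ⟨hs0, hs1⟩ := key _ _ h1
  rw [hrel] at hs0 hs1
  rw [← hD] at ht0 ht1
  refine ⟨(p.1 + det r s p / D * (q.1 - p.1), p.2 + det r s p / D * (q.2 - p.2)), ?_, ?_⟩
  · rw [seg_mem_iff]; exact ⟨_, ht0, ht1, rfl, rfl⟩
  · rw [seg_mem_iff]
    refine ⟨_, hs0, hs1, ?_, ?_⟩
    · simp only
      field_simp
      simp only [hD, det]
      ring
    · simp only
      field_simp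
      simp only [hD, det]
      ring

/-- straight-line drawings without crossings -/
def IsDrawing {V : Type*} (G : SimpleGraph V) (p : V → ℝ × ℝ) : Prop :=
  Function.Injective p ∧
  (∀ a b c : V, G.Adj a b → c ≠ a → c ≠ b → p c ∉ segment ℝ (p a) (p b)) ∧
  (∀ a b c d : V, G.Adj a b → G.Adj c d → s(a, b) ≠ s(c, d) →
    segment ℝ (p a) (p b) ∩ segment ℝ (p c) (p d) ⊆ {p a, p b} ∩ {p c, p d})

theorem det_rot (p q r : ℝ × ℝ) : det q r p = det p q r := by simp only [det]; ring
theorem det_swap (p q r : ℝ × ℝ) : det p r q = - det p q r := by simp only [det]; ring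

/-- three collinear points: one is between the others -/
theorem between_of_det {x y z : ℝ × ℝ} (h : det x y z = 0) (hxy : x ≠ y) :
    z ∈ segment ℝ x y ∨ y ∈ segment ℝ x z ∨ x ∈ segment ℝ z y := by
  have hline : ∃ t : ℝ, z.1 = x.1 + t * (y.1 - x.1) ∧ z.2 = x.2 + t * (y.2 - x.2) := by
    by_cases h1 : y.1 - x.1 = 0
    · have h2 : y.2 - x.2 ≠ 0 := by
        intro h2
        apply hxy
        ext <;> linarith
      refine ⟨(z.2 - x.2) / (y.2 - x.2), ?_, ?_⟩
      · have : (y.2 - x.2) * (z.1 - x.1) = 0 := by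
          simp only [det, h1] at h; linarith
        have h3 : z.1 - x.1 = 0 := by
          rcases mul_eq_zero.1 this with h4 | h4
          · exact absurd h4 h2
          · exact h4
        rw [h1]; linarith
      · field_simp; ring
    · refine ⟨(z.1 - x.1) / (y.1 - x.1), ?_, ?_⟩
      · field_simp; ring
      · field_simp
        simp only [det] at h
        linarith
  obtain ⟨t, ht1, ht2⟩ := hline
  rcases lt_or_ge t 0 with h0 | h0
  · right; right
    rw [seg_mem_iff]
    refine ⟨-t / (1 - t), by apply div_nonneg <;> linarith, by rw [div_le_one (by linarith)]; linarith, ?_, ?_⟩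
    · have : (1 - t) ≠ 0 := by linarith
      field_simp; rw [ht1]; ring
    · have : (1 - t) ≠ 0 := by linarith
      field_simp; rw [ht2]; ring
  · rcases le_or_gt t 1 with h1 | h1
    · left
      rw [seg_mem_iff]
      exact ⟨t, h0, h1, ht1, ht2⟩
    · right; left
      rw [seg_mem_iff]
      refine ⟨1 / t, by positivity, by rw [div_le_one (by linarith)]; linarith, ?_, ?_⟩
      · have : t ≠ 0 := by linarith
        field_simp; rw [ht1]; ring
      · have : t ≠ 0 := by linarith
        field_simp; rw [ht2]; ring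

/-- `u`, `v` on one side of a line through `x` and collinear with `x`: same ray. -/
theorem ray_of_det {x y u v : ℝ × ℝ} (h : det x u v = 0)
    (hs : 0 < det x y u * det x y v) :
    v ∈ segment ℝ x u ∨ u ∈ segment ℝ x v := by
  have hu : det x y u ≠ 0 := by intro h0; rw [h0] at hs; simp at hs
  have hv : det x y v ≠ 0 := by intro h0; rw [h0] at hs; simp at hs
  set t : ℝ := det x y v / det x y u with ht
  have htpos : 0 < t := by
    have : t = (det x y u * det x y v) / (det x y u)^2 := by
      rw [ht]; field_simp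
    rw [this]; positivity
  have e1 : v.1 = x.1 + t * (u.1 - x.1) := by
    rw [ht]; field_simp
    simp only [det] at h ⊢
    linear_combination (-(y.1 - x.1)) * h
  have e2 : v.2 = x.2 + t * (u.2 - x.2) := by
    rw [ht]; field_simp
    simp only [det] at h ⊢
    linear_combination (-(y.2 - x.2)) * h
  rcases le_or_gt t 1 with h1 | h1
  · left; rw [seg_mem_iff]; exact ⟨t, htpos.le, h1, e1, e2⟩
  · right; rw [seg_mem_iff]
    refine ⟨1 / t, by positivity, by rw [div_le_one (by linarith)]; linarith, ?_, ?_⟩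
    · rw [e1]; field_simp; ring
    · rw [e2]; field_simp; ring

section Drawing

variable {V : Type*} {G : SimpleGraph V} {φ : V → ℝ × ℝ}

theorem IsDrawing.nc (hd : IsDrawing G φ) {a b c d : V} (hab : G.Adj a b) (hcd : G.Adj c d)
    (h1 : a ≠ c) (h2 : a ≠ d) (h3 : b ≠ c) (h4 : b ≠ d) :
    ¬ (det (φ a) (φ b) (φ c) * det (φ a) (φ b) (φ d) < 0 ∧
      det (φ c) (φ d) (φ a) * det (φ c) (φ d) (φ b) < 0) := by
  rintro ⟨ha, hb⟩
  obtain ⟨X, hX⟩ := seg_cross ha hb
  have hne : s(a, b) ≠ s(c, d) := by
    intro h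
    rw [Sym2.eq_iff] at h
    rcases h with ⟨h, _⟩ | ⟨h, _⟩
    · exact h1 h
    · exact h2 h
  have := hd.2.2 a b c d hab hcd hne hX
  simp only [Set.mem_inter_iff, Set.mem_insert_iff, Set.mem_singleton_iff] at this
  rcases this with ⟨h5 | h5, h6 | h6⟩
  · exact h1 (hd.1 (h5.symm.trans h6))
  · exact h2 (hd.1 (h5.symm.trans h6))
  · exact h3 (hd.1 (h5.symm.trans h6))
  · exact h4 (hd.1 (h5.symm.trans h6))

theorem IsDrawing.det_ne (hd : IsDrawing G φ) {a b c : V} (hab : G.Adj a b) (hbc : G.Adj b c)
    (hac : G.Adj a c) : det (φ a) (φ b) (φ c) ≠ 0 := by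
  intro h
  have hne : φ a ≠ φ b := fun h => hab.ne (hd.1 h)
  rcases between_of_det h hne with h | h | h
  · exact hd.2.1 a b c hab hac.ne' hbc.ne' h
  · exact hd.2.1 a c b hac hab.ne' hbc.ne h
  · exact hd.2.1 c b a hbc.symm hac.ne hab.ne h

end Drawing

end Pool.Agent.R489.UPS
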