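import Pool.Agent.R489.UPS.Tri

/-!
Drawings of stacked triangulations: all vertices lie in a triangle spanned by three of them,
and the positions of the labelled vertices determine the insertion history.
-/

set_option autoImplicit false

namespace Pool.Agent.R489.UPS

/-- open triangle of a face -/
def TI (P : ℕ → ℝ × ℝ) (q : ℕ × ℕ × ℕ × ℕ) (p : ℝ × ℝ) : Prop :=
  Inside (P q.1) (P q.2.1) (P q.2.2.1) p

/-- closed triangle of a face -/
def TC (P : ℕ → ℝ × ℝ) (q : ℕ × ℕ × ℕ × ℕ) (p : ℝ × ℝ) : Prop :=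
  InC (P q.1) (P q.2.1) (P q.2.2.1) p

/-- the face is the outer one: its apex is inside -/
def Apx (P : ℕ → ℝ × ℝ) (q : ℕ × ℕ × ℕ × ℕ) : Prop := TI P q (P q.2.2.2)

structure Inv (s : ℕ → ℕ) (P : ℕ → ℝ × ℝ) (i : ℕ) : Prop where
  hull : ∃ x y z, x < 4 + i ∧ y < 4 + i ∧ z < 4 + i ∧
    ∀ w < 4 + i, InC (P x) (P y) (P z) (P w)
  out : ∀ j < 2 * i + 1, Apx P (F s i j) → ∀ w < 4 + i, TC P (F s i j) (P w)
  dis : ∀ j < 2 * i + 1, ∀ j' < 2 * i + 1, j ≠ j' → ¬ Apx P (F s i j) →
    ¬ Apx P (F s i j') → ∀ p, TI P (F s i j) p → ¬ TI P (F s i j') p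

/-- a labelled copy of a stacked triangulation in `G` -/
structure Lab {V : Type*} (G : SimpleGraph V) (s : ℕ → ℕ) (m : ℕ) (l : ℕ → V) : Prop where
  adj : ∀ a b, TAdj s m a b → G.Adj (l a) (l b)
  inj : ∀ a b, a < 4 + m → b < 4 + m → l a = l b → a = b

variable {V : Type*} {G : SimpleGraph V} {φ : V → ℝ × ℝ} {s : ℕ → ℕ} {m : ℕ} {l : ℕ → V}

theorem Lab.quad (L : Lab G s m l) {i j : ℕ} (hi : i ≤ m) :
    Quad (fun a b => G.Adj (l a) (l b)) (F s i j) := by
  have h := F_quad (s := s) i j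
  exact ⟨L.adj _ _ (h.xy.mono hi), L.adj _ _ (h.yz.mono hi), L.adj _ _ (h.zx.mono hi),
    L.adj _ _ (h.ux.mono hi), L.adj _ _ (h.uy.mono hi), L.adj _ _ (h.uz.mono hi)⟩

theorem Lab.cfg (L : Lab G s m l) {i : ℕ} (hi : i < m) :
    Cfg G (l (F s i (s i)).1) (l (F s i (s i)).2.1) (l (F s i (s i)).2.2.1)
      (l (F s i (s i)).2.2.2) (l (4 + i)) := by
  have h := L.quad (i := i) (j := s i) hi.le
  have e : ∀ b, (b = (F s i (s i)).1 ∨ b = (F s i (s i)).2.1 ∨ b = (F s i (s i)).2.2.1) →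
      G.Adj (l (4 + i)) (l b) := fun b hb => L.adj _ _ (Or.inr ⟨i, hi, Or.inl ⟨rfl, hb⟩⟩)
  refine ⟨h.xy, h.yz, h.zx, h.ux, h.uy, h.uz, e _ (Or.inl rfl), e _ (Or.inr (Or.inl rfl)),
    e _ (Or.inr (Or.inr rfl)), ?_⟩
  intro hE
  have hl := F_lt (s := s) i (s i)
  have := L.inj _ _ (by omega) (by omega) hE
  omega

theorem Lab.det_ne (L : Lab G s m l) (hd : IsDrawing G φ) {i j : ℕ} (hi : i ≤ m) :
    det (φ (l (F s i j).1)) (φ (l (F s i j).2.1)) (φ (l (F s i j).2.2.1)) ≠ 0 := by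
  have h := L.quad (i := i) (j := j) hi
  exact hd.det_ne h.xy h.yz h.zx.symm

theorem Lab.pinj (L : Lab G s m l) (hd : IsDrawing G φ) {a b : ℕ} (ha : a < 4 + m)
    (hb : b < 4 + m) (h : φ (l a) = φ (l b)) : a = b :=
  L.inj a b ha hb (hd.1 h)

/-- two faces that contain all points coincide -/
theorem out_unique (L : Lab G s m l) (hd : IsDrawing G φ) {i j j' : ℕ} (hi : i ≤ m)
    (hj : j < 2 * i + 1) (hj' : j' < 2 * i + 1)
    (h1 : ∀ w < 4 + i, TC (fun k => φ (l k)) (F s i j) (φ (l w)))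
    (h2 : ∀ w < 4 + i, TC (fun k => φ (l k)) (F s i j') (φ (l w))) : j = j' := by
  apply F_dist i j j' hj hj'
  have half : ∀ j j', (∀ w < 4 + i, TC (fun k => φ (l k)) (F s i j) (φ (l w))) →
      (∀ w < 4 + i, TC (fun k => φ (l k)) (F s i j') (φ (l w))) →
      fs (F s i j) ⊆ fs (F s i j') := by
    intro j j' h1 h2 k hk
    obtain ⟨a1, a2, a3, _⟩ := F_lt (s := s) i j
    obtain ⟨b1, b2, b3, _⟩ := F_lt (s := s) i j'
    have hA := L.det_ne hd (j := j) hi
    have c1 := h1 _ b1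
    have c2 := h1 _ b2
    have c3 := h1 _ b3
    simp only [fs, Set.mem_insert_iff, Set.mem_singleton_iff] at hk ⊢
    have fin : ∀ k < 4 + i, (φ (l k) = φ (l (F s i j').1) ∨ φ (l k) = φ (l (F s i j').2.1) ∨
        φ (l k) = φ (l (F s i j').2.2.1)) → (k = (F s i j').1 ∨ k = (F s i j').2.1 ∨
          k = (F s i j').2.2.1) := by
      intro k hk h
      rcases h with h | h | h
      · exact Or.inl (L.pinj hd (by omega) (by omega) h)
      · exact Or.inr (Or.inl (L.pinj hd (by omega) (by omega) h))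
      · exact Or.inr (Or.inr (L.pinj hd (by omega) (by omega) h))
    rcases hk with rfl | rfl | rfl
    · exact fin _ a1 (extreme hA c1 c2 c3 (h2 _ a1))
    · exact fin _ a2 (extreme (det_ne_rot hA) (InC.rot c1) (InC.rot c2) (InC.rot c3) (h2 _ a2))
    · exact fin _ a3 (extreme (det_ne_rot (det_ne_rot hA)) (InC.rot (InC.rot c1))
        (InC.rot (InC.rot c2)) (InC.rot (InC.rot c3)) (h2 _ a3))
  exact Set.Subset.antisymm (half j j' h1 h2) (half j' j h2 h1)

theorem inv_zero (L : Lab G s m l) (hd : IsDrawing G φ) : Inv s (fun k => φ (l k)) 0 := by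
  have h01 : G.Adj (l 0) (l 1) := L.adj _ _ (Or.inl (by decide))
  have h12 : G.Adj (l 1) (l 2) := L.adj _ _ (Or.inl (by decide))
  have h20 : G.Adj (l 2) (l 0) := L.adj _ _ (Or.inl (by decide))
  have h30 : G.Adj (l 3) (l 0) := L.adj _ _ (Or.inl (by decide))
  have h31 : G.Adj (l 3) (l 1) := L.adj _ _ (Or.inl (by decide))
  have h32 : G.Adj (l 3) (l 2) := L.adj _ _ (Or.inl (by decide))
  have all4 : ∀ (Q : ℕ → Prop), Q 0 → Q 1 → Q 2 → Q 3 → ∀ w < 4 + 0, Q w := by
    intro Q h0 h1 h2 h3 w hw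
    have : w = 0 ∨ w = 1 ∨ w = 2 ∨ w = 3 := by omega
    rcases this with rfl | rfl | rfl | rfl <;> assumption
  refine ⟨?_, ?_, ?_⟩
  · rcases hd.k4 h01 h12 h20 h30 h31 h32 with h | h | h | h
    · exact ⟨0, 1, 2, by norm_num, by norm_num, by norm_num,
        all4 _ (inC_x _ _ _) (inC_y _ _ _) (inC_z _ _ _) h.inC⟩
    · exact ⟨0, 1, 3, by norm_num, by norm_num, by norm_num,
        all4 _ (inC_x _ _ _) (inC_y _ _ _) h.inC (inC_z _ _ _)⟩
    · exact ⟨1, 2, 3, by norm_num, by norm_num, by norm_num,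
        all4 _ h.inC (inC_x _ _ _) (inC_y _ _ _) (inC_z _ _ _)⟩
    · exact ⟨2, 0, 3, by norm_num, by norm_num, by norm_num,
        all4 _ (inC_y _ _ _) h.inC (inC_x _ _ _) (inC_z _ _ _)⟩
  · intro j _ h
    simp only [Apx, TI, TC, F] at h ⊢
    exact all4 _ (inC_x _ _ _) (inC_y _ _ _) (inC_z _ _ _) h.inC
  · intro j hj j' hj' hne
    omega

/-- the new vertex is inside an inner face and outside the outer face -/
theorem new_pos (L : Lab G s m l) (hd : IsDrawing G φ) {i : ℕ} (hi : i < m) :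
    (¬ Apx (fun k => φ (l k)) (F s i (s i)) → TI (fun k => φ (l k)) (F s i (s i)) (φ (l (4 + i))))
    ∧ (Apx (fun k => φ (l k)) (F s i (s i)) →
      ¬ TI (fun k => φ (l k)) (F s i (s i)) (φ (l (4 + i)))) :=
  ⟨fun h => (L.cfg hi).sep hd h, fun h => (L.cfg hi).sep' hd h⟩

/-- cases for a face after the insertion -/
theorem face_cases (s : ℕ → ℕ) (i j : ℕ) (hj : j < 2 * (i + 1) + 1) :
    F s (i + 1) j = ((F s i (s i)).1, (F s i (s i)).2.1, 4 + i, (F s i (s i)).2.2.1) ∨
    F s (i + 1) j = ((F s i (s i)).2.1, (F s i (s i)).2.2.1, 4 + i, (F s i (s i)).1) ∨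
    F s (i + 1) j = ((F s i (s i)).2.2.1, (F s i (s i)).1, 4 + i, (F s i (s i)).2.1) ∨
    (j < 2 * i + 1 ∧ j ≠ s i ∧ F s (i + 1) j = F s i j) := by
  simp only [F]
  split_ifs with a b c
  · exact Or.inr (Or.inl rfl)
  · exact Or.inr (Or.inr (Or.inl rfl))
  · exact Or.inl rfl
  · exact Or.inr (Or.inr (Or.inr ⟨by omega, c, rfl⟩))

theorem inv_step (L : Lab G s m l) (hd : IsDrawing G φ) {i : ℕ} (hi : i < m)
    (hs : s i < 2 * i + 1) (I : Inv s (fun k => φ (l k)) i) :
    Inv s (fun k => φ (l k)) (i + 1) := by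
  set P : ℕ → ℝ × ℝ := fun k => φ (l k) with hP
  have hcfg := L.cfg hi
  have hdet := L.det_ne hd (j := s i) hi.le
  obtain ⟨l1, l2, l3, l4⟩ := F_lt (s := s) i (s i)
  have hnew := new_pos L hd hi
  rw [← hP] at hnew
  have hW : ∀ (Q : ℕ → Prop), (∀ w < 4 + i, Q w) → Q (4 + i) → ∀ w < 4 + (i + 1), Q w := by
    intro Q h1 h2 w hw
    rcases Nat.lt_or_ge w (4 + i) with h | h
    · exact h1 w h
    · have : w = 4 + i := by omega
      subst this; exact h2
  by_cases hap : Apx P (F s i (s i))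
  · -- outer face: the new vertex is outside
    have hall := I.out _ hs hap
    have hv := hnew.2 hap
    -- other faces with apex inside do not exist
    have huniq : ∀ j, j < 2 * i + 1 → j ≠ s i → ¬ Apx P (F s i j) := by
      intro j hj hne h
      exact hne (out_unique L hd hi.le hj hs (I.out j hj h) hall)
    -- old inner faces are inside the outer one
    have hsub : ∀ j, j < 2 * i + 1 → ∀ p, TI P (F s i j) p → TI P (F s i (s i)) p := by
      intro j hj p hp
      obtain ⟨a1, a2, a3, _⟩ := F_lt (s := s) i j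
      exact Inside.mono (hall _ a1) (hall _ a2) (hall _ a3) hdet hp
    -- general argument for the three rotations
    have main : ∀ (Q1 Q2 Q3 : ℕ × ℕ × ℕ × ℕ) (x y z : ℕ),
        Q1 = (x, y, 4 + i, z) → Q2 = (y, z, 4 + i, x) → Q3 = (z, x, 4 + i, y) →
        x < 4 + i → y < 4 + i → z < 4 + i →
        (∀ j < 2 * (i + 1) + 1, F s (i + 1) j = Q1 ∨ F s (i + 1) j = Q2 ∨ F s (i + 1) j = Q3 ∨
          (j < 2 * i + 1 ∧ j ≠ s i ∧ F s (i + 1) j = F s i j)) →
        (∀ w < 4 + i, InC (P x) (P y) (P z) (P w)) →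
        (∀ p, TI P (F s i (s i)) p → Inside (P x) (P y) (P z) p) →
        Inside (P x) (P y) (P (4 + i)) (P z) → Inv s P (i + 1) := by
      intro Q1 Q2 Q3 x y z e1 e2 e3 hx hy hz hc hall' hsame hin
      obtain ⟨o1, ⟨o2, o2'⟩, ⟨o3, o3'⟩, o4⟩ := out_case hin
      refine ⟨⟨x, y, 4 + i, by omega, by omega, by omega,
        hW _ (fun w hw => o1 _ (hall' w hw)) (inC_z _ _ _)⟩, ?_, ?_⟩
      · intro j hj hj2
        rcases hc j hj with h | h | h | ⟨h1, h2, h3⟩
        · rw [h, e1]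
          exact hW _ (fun w hw => o1 _ (hall' w hw)) (inC_z _ _ _)
        · rw [h, e2] at hj2; exact absurd hj2 o2
        · rw [h, e3] at hj2; exact absurd hj2 o3
        · rw [h3] at hj2; exact absurd hj2 (huniq j h1 h2)
      · -- disjointness
        have dQ2 : ∀ j < 2 * i + 1, j ≠ s i → ∀ p, TI P Q2 p → ¬ TI P (F s i j) p := by
          intro j h1 h2 p hp hp'
          rw [e2] at hp
          exact o2' p hp (hsame p (hsub j h1 p hp'))
        have dQ3 : ∀ j < 2 * i + 1, j ≠ s i → ∀ p, TI P Q3 p → ¬ TI P (F s i j) p := by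
          intro j h1 h2 p hp hp'
          rw [e3] at hp
          exact o3' p hp (hsame p (hsub j h1 p hp'))
        have dQ23 : ∀ p, TI P Q2 p → ¬ TI P Q3 p := by
          intro p h1 h2
          rw [e2] at h1; rw [e3] at h2
          exact o4 p ⟨h1, h2⟩
        have aQ1 : Apx P Q1 := by rw [e1]; exact hin
        intro j hj j' hj' hne hn hn' p hp hp'
        have hne' : F s (i + 1) j ≠ F s (i + 1) j' := fun h =>
          hne (F_dist (i + 1) j j' hj hj' (by rw [h]))
        rcases hc j hj with h | h | h | ⟨h1, h2, h3⟩ <;>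
          rcases hc j' hj' with h' | h' | h' | ⟨h1', h2', h3'⟩
        · exact hne' (h.trans h'.symm)
        · rw [h] at hn; exact hn aQ1
        · rw [h] at hn; exact hn aQ1
        · rw [h] at hn; exact hn aQ1
        · rw [h'] at hn'; exact hn' aQ1
        · exact hne' (h.trans h'.symm)
        · rw [h] at hp; rw [h'] at hp'; exact dQ23 p hp hp'
        · rw [h] at hp; rw [h3'] at hp'; exact dQ2 j' h1' h2' p hp hp'
        · rw [h'] at hn'; exact hn' aQ1
        · rw [h] at hp; rw [h'] at hp'; exact dQ23 p hp' hp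
        · exact hne' (h.trans h'.symm)
        · rw [h] at hp; rw [h3'] at hp'; exact dQ3 j' h1' h2' p hp hp'
        · rw [h'] at hn'; exact hn' aQ1
        · rw [h3] at hp; rw [h'] at hp'; exact dQ2 j h1 h2 p hp' hp
        · rw [h3] at hp; rw [h'] at hp'; exact dQ3 j h1 h2 p hp' hp
        · rw [h3] at hp hn; rw [h3'] at hp' hn'
          exact I.dis j h1 j' h1' hne hn hn' p hp hp'
    rcases hd.k4 hcfg.xy hcfg.yz hcfg.zx hcfg.vx hcfg.vy hcfg.vz with h | h | h | h
    · exact absurd h hv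
    · exact main _ _ _ _ _ _ rfl rfl rfl l1 l2 l3 (fun j hj => face_cases s i j hj) hall
        (fun p hp => hp) h
    · refine main _ _ _ _ _ _ rfl rfl rfl l2 l3 l1 (fun j hj => ?_)
        (fun w hw => InC.rot (hall w hw)) (fun p hp => Inside.rot hp) h
      rcases face_cases s i j hj with h | h | h | h
      · exact Or.inr (Or.inr (Or.inl h))
      · exact Or.inl h
      · exact Or.inr (Or.inl h)
      · exact Or.inr (Or.inr (Or.inr h))
    · refine main _ _ _ _ _ _ rfl rfl rfl l3 l1 l2 (fun j hj => ?_)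
        (fun w hw => InC.rot (InC.rot (hall w hw))) (fun p hp => Inside.rot (Inside.rot hp)) h
      rcases face_cases s i j hj with h | h | h | h
      · exact Or.inr (Or.inl h)
      · exact Or.inr (Or.inr (Or.inl h))
      · exact Or.inl h
      · exact Or.inr (Or.inr (Or.inr h))
  · -- inner face: the new vertex is inside
    have hv : Inside (P (F s i (s i)).1) (P (F s i (s i)).2.1) (P (F s i (s i)).2.2.1)
      (P (4 + i)) := hnew.1 hap
    obtain ⟨⟨a1, b1⟩, ⟨a2, b2⟩, ⟨a3, b3⟩, d12, d23, d31⟩ := in_case hv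
    have hvC : ∀ x y z : ℝ × ℝ, (∀ w < 4 + i, InC x y z (P w)) → InC x y z (P (4 + i)) := by
      intro x y z h
      exact InC.trans (h _ l1) (h _ l2) (h _ l3) hv.inC
    refine ⟨?_, ?_, ?_⟩
    · obtain ⟨x, y, z, hx, hy, hz, h⟩ := I.hull
      exact ⟨x, y, z, by omega, by omega, by omega, hW _ h (hvC _ _ _ h)⟩
    · intro j hj hj2
      rcases face_cases s i j hj with h | h | h | ⟨h1, h2, h3⟩
      · rw [h] at hj2; exact absurd hj2 a1
      · rw [h] at hj2; exact absurd hj2 a2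
      · rw [h] at hj2; exact absurd hj2 a3
      · rw [h3] at hj2 ⊢
        exact hW _ (I.out j h1 hj2) (hvC _ _ _ (I.out j h1 hj2))
    · intro j hj j' hj' hne hn hn' p hp hp'
      have hne' : F s (i + 1) j ≠ F s (i + 1) j' := fun h =>
        hne (F_dist (i + 1) j j' hj hj' (by rw [h]))
      have old : ∀ j < 2 * i + 1, j ≠ s i → ¬ Apx P (F s i j) → ∀ p, TI P (F s i j) p →
          ¬ TI P (F s i (s i)) p := fun j h1 h2 h3 => I.dis j h1 _ hs h2 h3 hap
      rcases face_cases s i j hj with h | h | h | ⟨h1, h2, h3⟩ <;>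
        rcases face_cases s i j' hj' with h' | h' | h' | ⟨h1', h2', h3'⟩
      · exact hne' (h.trans h'.symm)
      · rw [h] at hp; rw [h'] at hp'; exact d12 p ⟨hp, hp'⟩
      · rw [h] at hp; rw [h'] at hp'; exact d31 p ⟨hp', hp⟩
      · rw [h] at hp; rw [h3'] at hp' hn'; exact old j' h1' h2' hn' p hp' (b1 p hp)
      · rw [h] at hp; rw [h'] at hp'; exact d12 p ⟨hp', hp⟩
      · exact hne' (h.trans h'.symm)
      · rw [h] at hp; rw [h'] at hp'; exact d23 p ⟨hp, hp'⟩
      · rw [h] at hp; rw [h3'] at hp' hn'; exact old j' h1' h2' hn' p hp' (b2 p hp)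
      · rw [h] at hp; rw [h'] at hp'; exact d31 p ⟨hp, hp'⟩
      · rw [h] at hp; rw [h'] at hp'; exact d23 p ⟨hp', hp⟩
      · exact hne' (h.trans h'.symm)
      · rw [h] at hp; rw [h3'] at hp' hn'; exact old j' h1' h2' hn' p hp' (b3 p hp)
      · rw [h3] at hp hn; rw [h'] at hp'; exact old j h1 h2 hn p hp (b1 p hp')
      · rw [h3] at hp hn; rw [h'] at hp'; exact old j h1 h2 hn p hp (b2 p hp')
      · rw [h3] at hp hn; rw [h'] at hp'; exact old j h1 h2 hn p hp (b3 p hp')
      · rw [h3] at hp hn; rw [h3'] at hp' hn'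
        exact I.dis j h1 j' h1' hne hn hn' p hp hp'

theorem inv_all (L : Lab G s m l) (hd : IsDrawing G φ) (hs : ∀ i < m, s i < 2 * i + 1) :
    ∀ i ≤ m, Inv s (fun k => φ (l k)) i := by
  intro i
  induction i with
  | zero => intro _; exact inv_zero L hd
  | succ i ih => intro hi; exact inv_step L hd (by omega) (hs i (by omega)) (ih (by omega))

theorem F_congr {s s' : ℕ → ℕ} : ∀ (i : ℕ), (∀ j < i, s j = s' j) → F s i = F s' i := by
  intro i
  induction i with
  | zero => intro _; funext j; simp [F]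
  | succ i ih =>
    intro h
    have h1 := ih (fun j hj => h j (by omega))
    have h2 := h i (by omega)
    funext j
    simp only [F, h1, h2]

/-- the positions of the labelled vertices determine the history -/
theorem hist_unique {G' : SimpleGraph V} {s' : ℕ → ℕ} (L : Lab G s m l) (hd : IsDrawing G φ)
    (L' : Lab G' s' m l) (hd' : IsDrawing G' φ) (hs : ∀ i < m, s i < 2 * i + 1)
    (hs' : ∀ i < m, s' i < 2 * i + 1) : ∀ i < m, s i = s' i := by
  intro i
  induction i using Nat.strong_induction_on with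
  | _ i ih =>
    intro hi
    by_contra hne
    have hF : F s i = F s' i := F_congr i (fun j hj => ih j hj (by omega))
    have I := inv_all L hd hs i hi.le
    have n1 := new_pos L hd hi
    have n2 := new_pos L' hd' hi
    rw [← hF] at n2
    set P : ℕ → ℝ × ℝ := fun k => φ (l k) with hP
    have hj := hs i hi
    have hj' := hs' i hi
    by_cases c1 : Apx P (F s i (s i)) <;> by_cases c2 : Apx P (F s i (s' i))
    · exact hne (out_unique L hd hi.le hj hj' (I.out _ hj c1) (I.out _ hj' c2))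
    · have h1 := n2.1 c2
      have hall := I.out _ hj c1
      obtain ⟨a1, a2, a3, _⟩ := F_lt (s := s) i (s' i)
      exact n1.2 c1 (Inside.mono (hall _ a1) (hall _ a2) (hall _ a3)
        (L.det_ne hd hi.le) h1)
    · have h1 := n1.1 c1
      have hall := I.out _ hj' c2
      obtain ⟨a1, a2, a3, _⟩ := F_lt (s := s) i (s i)
      exact n2.2 c2 (Inside.mono (hall _ a1) (hall _ a2) (hall _ a3)
        (L.det_ne hd hi.le) h1)
    · exact I.dis _ hj _ hj' hne c1 c2 _ (n1.1 c1) (n2.1 c2)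

end Pool.Agent.R489.UPS
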