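import Pool.Agent.R489.UPS.Geo

/-!
The `K4` lemma (one vertex is inside the triangle of the other three) and the
`K5` minus an edge lemma (the two non-adjacent vertices are separated by the triangle).
-/

set_option autoImplicit false

namespace Pool.Agent.R489.UPS

theorem k4_real {a b c d : ℝ} (ha : 0 < a) (h : b + c + d = a) (hb : b ≠ 0) (hc : c ≠ 0)
    (hd : d ≠ 0) (n1 : ¬ (b < 0 ∧ 0 < c * d)) (n2 : ¬ (c < 0 ∧ 0 < b * d))
    (n3 : ¬ (d < 0 ∧ 0 < b * c)) :
    (0 < b ∧ 0 < c ∧ 0 < d) ∨ (0 < b ∧ c < 0 ∧ d < 0) ∨ (0 < c ∧ b < 0 ∧ d < 0) ∨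
      (0 < d ∧ b < 0 ∧ c < 0) := by
  rcases lt_or_gt_of_ne hb with hb | hb <;> rcases lt_or_gt_of_ne hc with hc | hc <;>
    rcases lt_or_gt_of_ne hd with hd | hd
  · linarith
  · right; right; right; exact ⟨hd, hb, hc⟩
  · right; right; left; exact ⟨hc, hb, hd⟩
  · exact absurd ⟨hb, mul_pos hc hd⟩ n1
  · right; left; exact ⟨hb, hc, hd⟩
  · exact absurd ⟨hc, mul_pos hb hd⟩ n2
  · exact absurd ⟨hd, mul_pos hb hc⟩ n3
  · left; exact ⟨hb, hc, hd⟩

theorem core_in {B C D B' C' D' s1 s2 s3 : ℝ} (hB : 0 < B) (hC : 0 < C) (hD : 0 < D)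
    (hB' : 0 < B') (hC' : 0 < C') (hD' : 0 < D')
    (n12 : ¬ (s1 * B < 0 ∧ s2 * B' < 0)) (n21 : ¬ (0 < s2 * B ∧ 0 < s1 * B'))
    (n13 : ¬ (0 < s1 * D ∧ 0 < s3 * D')) (n31 : ¬ (s3 * D < 0 ∧ s1 * D' < 0))
    (n23 : ¬ (s2 * C < 0 ∧ s3 * C' < 0)) (n32 : ¬ (0 < s3 * C ∧ 0 < s2 * C'))
    (h1 : s1 ≠ 0) (h2 : s2 ≠ 0) (h3 : s3 ≠ 0) : False := by
  rcases lt_or_gt_of_ne h1 with h1 | h1 <;> rcases lt_or_gt_of_ne h2 with h2 | h2 <;>
    rcases lt_or_gt_of_ne h3 with h3 | h3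
  · exact n12 ⟨mul_neg_of_neg_of_pos h1 hB, mul_neg_of_neg_of_pos h2 hB'⟩
  · exact n12 ⟨mul_neg_of_neg_of_pos h1 hB, mul_neg_of_neg_of_pos h2 hB'⟩
  · exact n31 ⟨mul_neg_of_neg_of_pos h3 hD, mul_neg_of_neg_of_pos h1 hD'⟩
  · exact n32 ⟨mul_pos h3 hC, mul_pos h2 hC'⟩
  · exact n23 ⟨mul_neg_of_neg_of_pos h2 hC, mul_neg_of_neg_of_pos h3 hC'⟩
  · exact n13 ⟨mul_pos h1 hD, mul_pos h3 hD'⟩
  · exact n21 ⟨mul_pos h2 hB, mul_pos h1 hB'⟩
  · exact n21 ⟨mul_pos h2 hB, mul_pos h1 hB'⟩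

theorem core_zz {B C D B' C' D' s1 s2 s3 : ℝ} (hB : 0 < B) (hC : C < 0) (hD : D < 0)
    (hB' : 0 < B') (hC' : C' < 0) (hD' : D' < 0)
    (n12 : ¬ (s1 * B < 0 ∧ s2 * B' < 0)) (n21 : ¬ (0 < s2 * B ∧ 0 < s1 * B'))
    (n13 : ¬ (0 < s1 * D ∧ 0 < s3 * D')) (n31 : ¬ (s3 * D < 0 ∧ s1 * D' < 0))
    (n23 : ¬ (s2 * C < 0 ∧ s3 * C' < 0)) (n32 : ¬ (0 < s3 * C ∧ 0 < s2 * C'))
    (h1 : s1 ≠ 0) (h2 : s2 ≠ 0) (h3 : s3 ≠ 0) : False := by
  rcases lt_or_gt_of_ne h1 with h1 | h1 <;> rcases lt_or_gt_of_ne h2 with h2 | h2 <;>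
    rcases lt_or_gt_of_ne h3 with h3 | h3
  · exact n12 ⟨mul_neg_of_neg_of_pos h1 hB, mul_neg_of_neg_of_pos h2 hB'⟩
  · exact n12 ⟨mul_neg_of_neg_of_pos h1 hB, mul_neg_of_neg_of_pos h2 hB'⟩
  · exact n13 ⟨mul_pos_of_neg_of_neg h1 hD, mul_pos_of_neg_of_neg h3 hD'⟩
  · exact n23 ⟨mul_neg_of_pos_of_neg h2 hC, mul_neg_of_pos_of_neg h3 hC'⟩
  · exact n32 ⟨mul_pos_of_neg_of_neg h3 hC, mul_pos_of_neg_of_neg h2 hC'⟩
  · exact n31 ⟨mul_neg_of_pos_of_neg h3 hD, mul_neg_of_pos_of_neg h1 hD'⟩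
  · exact n21 ⟨mul_pos h2 hB, mul_pos h1 hB'⟩
  · exact n21 ⟨mul_pos h2 hB, mul_pos h1 hB'⟩

theorem core_zx {B C D B' C' D' s1 s2 s3 : ℝ} (hB : 0 < B) (hC : C < 0) (hD : D < 0)
    (hB' : B' < 0) (hC' : 0 < C') (hD' : D' < 0)
    (e1 : s1 * C + s2 * D + s3 * B = 0) (e2 : s1 * C' + s2 * D' + s3 * B' = 0)
    (n12 : ¬ (s1 * B < 0 ∧ s2 * B' < 0))
    (n13 : ¬ (0 < s1 * D ∧ 0 < s3 * D')) (n31 : ¬ (s3 * D < 0 ∧ s1 * D' < 0))
    (n23 : ¬ (s2 * C < 0 ∧ s3 * C' < 0))
    (h1 : s1 ≠ 0) (h3 : s3 ≠ 0) : False := by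
  rcases lt_or_gt_of_ne h1 with h1 | h1 <;> rcases lt_or_gt_of_ne h3 with h3 | h3
  · exact n13 ⟨mul_pos_of_neg_of_neg h1 hD, mul_pos_of_neg_of_neg h3 hD'⟩
  · rcases lt_or_ge 0 s2 with h2 | h2
    · exact n12 ⟨mul_neg_of_neg_of_pos h1 hB, mul_neg_of_pos_of_neg h2 hB'⟩
    · have := mul_pos_of_neg_of_neg h1 hC
      have := mul_nonneg_of_nonpos_of_nonpos h2 hD.le
      have := mul_pos h3 hB
      linarith
  · rcases lt_or_ge 0 s2 with h2 | h2
    · exact n23 ⟨mul_neg_of_pos_of_neg h2 hC, mul_neg_of_neg_of_pos h3 hC'⟩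
    · have := mul_pos h1 hC'
      have := mul_nonneg_of_nonpos_of_nonpos h2 hD'.le
      have := mul_pos_of_neg_of_neg h3 hB'
      linarith
  · exact n31 ⟨mul_neg_of_pos_of_neg h3 hD, mul_neg_of_pos_of_neg h1 hD'⟩

theorem sgn_scale {A s t : ℝ} (hA : A ≠ 0) : (A * s) * (A * t) < 0 ↔ s * t < 0 := by
  have hA2 : 0 < A * A := mul_self_pos.2 hA
  constructor
  · intro h
    by_contra h'
    push Not at h'
    nlinarith
  · intro h
    have : (A * s) * (A * t) = (A * A) * (s * t) := by ring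
    rw [this]
    exact mul_neg_of_pos_of_neg hA2 h

theorem sgn_scale' {A s t : ℝ} (hA : A ≠ 0) : 0 < (A * s) * (A * t) ↔ 0 < s * t := by
  have hA2 : 0 < A * A := mul_self_pos.2 hA
  constructor
  · intro h
    by_contra h'
    push Not at h'
    nlinarith
  · intro h
    have : (A * s) * (A * t) = (A * A) * (s * t) := by ring
    rw [this]
    exact mul_pos hA2 h

section Drawing

variable {V : Type*} {G : SimpleGraph V} {φ : V → ℝ × ℝ}

/-- Inside in terms of the other vertices -/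
theorem inside_iff_z {x y z u : ℝ × ℝ} :
    Inside x y u z ↔ (0 < det x y z * det x y u ∧ det x y z * det y z u < 0 ∧
      det x y z * det z x u < 0) := by
  have e : det x y u + det y z u + det z x u = det x y z := by simp only [det]; ring
  have e1 : det y u z = - det y z u := by simp only [det]; ring
  have e2 : det u x z = - det z x u := by simp only [det]; ring
  unfold Inside
  rw [e1, e2]
  generalize det x y u = B at *
  generalize det y z u = C at *
  generalize det z x u = D at *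
  generalize det x y z = A at *
  constructor
  · rintro ⟨h1, h2, h3⟩
    rcases lt_trichotomy B 0 with hB | hB | hB
    · have hA : A < 0 := by nlinarith
      have hC : 0 < C := by nlinarith
      have hD : 0 < D := by nlinarith
      exact ⟨by nlinarith, by nlinarith, by nlinarith⟩
    · subst hB; simp at h1
    · have hA : 0 < A := by nlinarith
      have hC : C < 0 := by nlinarith
      have hD : D < 0 := by nlinarith
      exact ⟨by nlinarith, by nlinarith, by nlinarith⟩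
  · rintro ⟨h1, h2, h3⟩
    rcases lt_trichotomy B 0 with hB | hB | hB
    · have hA : A < 0 := by nlinarith
      have hC : 0 < C := by nlinarith
      have hD : 0 < D := by nlinarith
      exact ⟨by nlinarith, by nlinarith, by nlinarith⟩
    · subst hB; simp at h1
    · have hA : 0 < A := by nlinarith
      have hC : C < 0 := by nlinarith
      have hD : D < 0 := by nlinarith
      exact ⟨by nlinarith, by nlinarith, by nlinarith⟩

theorem Inside.rot {x y z p : ℝ × ℝ} (h : Inside x y z p) : Inside y z x p := by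
  unfold Inside at *
  rw [det_rot x y z]
  exact ⟨h.2.1, h.2.2, h.1⟩

theorem inside_rot_iff {x y z p : ℝ × ℝ} : Inside y z x p ↔ Inside x y z p :=
  ⟨fun h => h.rot.rot, fun h => h.rot⟩

theorem Inside.swap {x y z p : ℝ × ℝ} (h : Inside x y z p) : Inside y x z p := by
  unfold Inside at *
  have e : det y x z = - det x y z := by simp only [det]; ring
  have e1 : det y x p = - det x y p := by simp only [det]; ring
  have e2 : det x z p = - det z x p := by simp only [det]; ring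
  have e3 : det z y p = - det y z p := by simp only [det]; ring
  rw [e, e1, e2, e3]
  refine ⟨?_, ?_, ?_⟩
  · have := h.1; linarith
  · have := h.2.2; linarith
  · have := h.2.1; linarith

/-- the `K4` lemma -/
theorem IsDrawing.k4 (hd : IsDrawing G φ) {x y z u : V} (hxy : G.Adj x y) (hyz : G.Adj y z)
    (hzx : G.Adj z x) (hux : G.Adj u x) (huy : G.Adj u y) (huz : G.Adj u z) :
    Inside (φ x) (φ y) (φ z) (φ u) ∨ Inside (φ x) (φ y) (φ u) (φ z) ∨
      Inside (φ y) (φ z) (φ u) (φ x) ∨ Inside (φ z) (φ x) (φ u) (φ y) := by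
  have hA := hd.det_ne hxy hyz hzx.symm
  have hB := hd.det_ne hxy huy.symm hux.symm
  have hC := hd.det_ne hyz huz.symm huy.symm
  have hD := hd.det_ne hzx hux.symm huz.symm
  have n1 := hd.nc hxy huz.symm hzx.ne' hux.ne' hyz.ne huy.ne'
  have n2 := hd.nc hyz hux.symm hxy.ne' huy.ne' hzx.ne huz.ne'
  have n3 := hd.nc hzx huy.symm hyz.ne' huz.ne' hxy.ne hux.ne'
  generalize φ x = X at *
  generalize φ y = Y at *
  generalize φ z = Z at *
  generalize φ u = U at *
  have e : det X Y U + det Y Z U + det Z X U = det X Y Z := by simp only [det]; ring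
  have r1 : det Z U X = - det Z X U := by simp only [det]; ring
  have r2 : det Z U Y = det Y Z U := by simp only [det]; ring
  have r3 : det Y Z X = det X Y Z := by simp only [det]; ring
  have r4 : det X U Y = - det X Y U := by simp only [det]; ring
  have r5 : det X U Z = det Z X U := by simp only [det]; ring
  have r6 : det Z X Y = det X Y Z := by simp only [det]; ring
  have r7 : det Y U Z = - det Y Z U := by simp only [det]; ring
  have r8 : det Y U X = det X Y U := by simp only [det]; ring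
  rw [r1, r2] at n1
  rw [r3, r4, r5] at n2
  rw [r6, r7, r8] at n3
  have hA2 : 0 < det X Y Z * det X Y Z := mul_self_pos.2 hA
  rcases k4_real (a := det X Y Z * det X Y Z) (b := det X Y Z * det X Y U)
    (c := det X Y Z * det Y Z U) (d := det X Y Z * det Z X U) hA2
    (by rw [← mul_add, ← mul_add, e]) (mul_ne_zero hA hB) (mul_ne_zero hA hC)
    (mul_ne_zero hA hD)
    (by rintro ⟨h1, h2⟩; rw [sgn_scale' hA] at h2; exact n1 ⟨h1, by linarith⟩)
    (by rintro ⟨h1, h2⟩; rw [sgn_scale' hA] at h2; exact n2 ⟨h1, by linarith⟩)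
    (by rintro ⟨h1, h2⟩; rw [sgn_scale' hA] at h2; exact n3 ⟨h1, by linarith⟩) with h | h | h | h
  · left; exact ⟨h.1, h.2.1, h.2.2⟩
  · right; left; rw [inside_iff_z]; exact h
  · right; right; left; rw [inside_iff_z, r3]; exact ⟨h.1, h.2.2, h.2.1⟩
  · right; right; right; rw [inside_iff_z, r6]; exact ⟨h.1, h.2.1, h.2.2⟩

/-- configuration of `K5` minus the edge `uv` -/
structure Cfg (G : SimpleGraph V) (x y z u v : V) : Prop where
  xy : G.Adj x y
  yz : G.Adj y z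
  zx : G.Adj z x
  ux : G.Adj u x
  uy : G.Adj u y
  uz : G.Adj u z
  vx : G.Adj v x
  vy : G.Adj v y
  vz : G.Adj v z
  uv : u ≠ v

theorem Cfg.rot {x y z u v : V} (h : Cfg G x y z u v) : Cfg G y z x u v :=
  ⟨h.yz, h.zx, h.xy, h.uy, h.uz, h.ux, h.vy, h.vz, h.vx, h.uv⟩

theorem Cfg.sw {x y z u v : V} (h : Cfg G x y z u v) : Cfg G x y z v u :=
  ⟨h.xy, h.yz, h.zx, h.vx, h.vy, h.vz, h.ux, h.uy, h.uz, h.uv.symm⟩

/-- collinear with `x` on one side: impossible -/
theorem Cfg.noray {x y z u v : V} (h : Cfg G x y z u v) (hd : IsDrawing G φ)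
    (h0 : det (φ u) (φ x) (φ v) = 0) {w : V}
    (hs : 0 < det (φ x) (φ w) (φ u) * det (φ x) (φ w) (φ v)) : False := by
  have h1 : det (φ x) (φ u) (φ v) = 0 := by
    have : det (φ x) (φ u) (φ v) = - det (φ u) (φ x) (φ v) := by simp only [det]; ring
    rw [this, h0, neg_zero]
  rcases ray_of_det h1 hs with h2 | h2
  · exact hd.2.1 x u v h.ux.symm h.vx.ne h.uv.symm h2
  · exact hd.2.1 x v u h.vx.symm h.ux.ne h.uv h2

theorem Cfg.data {x y z u v : V} (h : Cfg G x y z u v) (hd : IsDrawing G φ) :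
    let X := φ x; let Y := φ y; let Z := φ z; let U := φ u; let W := φ v
    (det U X W * det X Y U < 0 ∧ det U Y W * det X Y W < 0 → False) ∧
    (0 < det U Y W * det X Y U ∧ 0 < det U X W * det X Y W → False) ∧
    (0 < det U X W * det Z X U ∧ 0 < det U Z W * det Z X W → False) ∧
    (det U Z W * det Z X U < 0 ∧ det U X W * det Z X W < 0 → False) ∧
    (det U Y W * det Y Z U < 0 ∧ det U Z W * det Y Z W < 0 → False) ∧
    (0 < det U Z W * det Y Z U ∧ 0 < det U Y W * det Y Z W → False) := by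
  have n12 := hd.nc h.ux h.vy h.uv h.uy.ne h.vx.ne' h.xy.ne
  have n21 := hd.nc h.uy h.vx h.uv h.ux.ne h.vy.ne' h.xy.ne'
  have n13 := hd.nc h.ux h.vz h.uv h.uz.ne h.vx.ne' h.zx.ne'
  have n31 := hd.nc h.uz h.vx h.uv h.ux.ne h.vz.ne' h.zx.ne
  have n23 := hd.nc h.uy h.vz h.uv h.uz.ne h.vy.ne' h.yz.ne
  have n32 := hd.nc h.uz h.vy h.uv h.uy.ne h.vz.ne' h.yz.ne'
  intro X Y Z U W
  have r1 : det U X Y = det X Y U := by simp only [det]; ring
  have r2 : det W Y U = - det U Y W := by simp only [det]; ring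
  have r3 : det W Y X = - det X Y W := by simp only [det]; ring
  have r4 : det U Y X = - det X Y U := by simp only [det]; ring
  have r5 : det W X U = - det U X W := by simp only [det]; ring
  have r6 : det W X Y = det X Y W := by simp only [det]; ring
  have r7 : det U X Z = - det Z X U := by simp only [det]; ring
  have r8 : det W Z U = - det U Z W := by simp only [det]; ring
  have r9 : det W Z X = det Z X W := by simp only [det]; ring
  have r10 : det U Z X = det Z X U := by simp only [det]; ring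
  have r11 : det W X Z = - det Z X W := by simp only [det]; ring
  have r12 : det U Y Z = det Y Z U := by simp only [det]; ring
  have r13 : det W Z Y = - det Y Z W := by simp only [det]; ring
  have r14 : det U Z Y = - det Y Z U := by simp only [det]; ring
  have r15 : det W Y Z = det Y Z W := by simp only [det]; ring
  change ¬ (det U X W * det U X Y < 0 ∧ det W Y U * det W Y X < 0) at n12
  change ¬ (det U Y W * det U Y X < 0 ∧ det W X U * det W X Y < 0) at n21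
  change ¬ (det U X W * det U X Z < 0 ∧ det W Z U * det W Z X < 0) at n13
  change ¬ (det U Z W * det U Z X < 0 ∧ det W X U * det W X Z < 0) at n31
  change ¬ (det U Y W * det U Y Z < 0 ∧ det W Z U * det W Z Y < 0) at n23
  change ¬ (det U Z W * det U Z Y < 0 ∧ det W Y U * det W Y Z < 0) at n32
  rw [r1, r2, r3] at n12
  rw [r4, r5, r6] at n21
  rw [r7, r8, r9] at n13
  rw [r10, r5, r11] at n31
  rw [r12, r8, r13] at n23
  rw [r14, r2, r15] at n32
  refine ⟨?_, ?_, ?_, ?_, ?_, ?_⟩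
  · rintro ⟨h1, h2⟩; exact n12 ⟨h1, by linarith⟩
  · rintro ⟨h1, h2⟩; exact n21 ⟨by linarith, by linarith⟩
  · rintro ⟨h1, h2⟩; exact n13 ⟨by linarith, by linarith⟩
  · rintro ⟨h1, h2⟩; exact n31 ⟨by linarith, by linarith⟩
  · rintro ⟨h1, h2⟩; exact n23 ⟨by linarith, by linarith⟩
  · rintro ⟨h1, h2⟩; exact n32 ⟨by linarith, by linarith⟩

theorem pos_of_scaled {A s t : ℝ} (hs : 0 < A * s) (ht : 0 < A * t) : 0 < s * t := by
  have hA : A ≠ 0 := by rintro rfl; simp at hs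
  rw [← sgn_scale' hA]; exact mul_pos hs ht

theorem pos_of_scaled' {A s t : ℝ} (hs : A * s < 0) (ht : A * t < 0) : 0 < s * t := by
  have hA : A ≠ 0 := by rintro rfl; simp at hs
  rw [← sgn_scale' hA]; exact mul_pos_of_neg_of_neg hs ht

theorem Cfg.in_in {x y z u v : V} (h : Cfg G x y z u v) (hd : IsDrawing G φ)
    (hu : Inside (φ x) (φ y) (φ z) (φ u)) (hv : Inside (φ x) (φ y) (φ z) (φ v)) : False := by
  obtain ⟨n12, n21, n13, n31, n23, n32⟩ := h.data hd
  have hA : det (φ x) (φ y) (φ z) ≠ 0 := hd.det_ne h.xy h.yz h.zx.symm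
  obtain ⟨hB, hC, hD⟩ := hu
  obtain ⟨hB', hC', hD'⟩ := hv
  have s1 : det (φ u) (φ x) (φ v) ≠ 0 := fun h0 =>
    h.noray hd h0 (w := y) (pos_of_scaled hB hB')
  have s2 : det (φ u) (φ y) (φ v) ≠ 0 := fun h0 =>
    h.rot.noray hd h0 (w := z) (pos_of_scaled hC hC')
  have s3 : det (φ u) (φ z) (φ v) ≠ 0 := fun h0 =>
    h.rot.rot.noray hd h0 (w := x) (pos_of_scaled hD hD')
  exact core_in hB hC hD hB' hC' hD'
    (s1 := det (φ x) (φ y) (φ z) * det (φ u) (φ x) (φ v))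
    (s2 := det (φ x) (φ y) (φ z) * det (φ u) (φ y) (φ v))
    (s3 := det (φ x) (φ y) (φ z) * det (φ u) (φ z) (φ v))
    (by rw [sgn_scale hA, sgn_scale hA]; exact n12)
    (by rw [sgn_scale' hA, sgn_scale' hA]; exact n21)
    (by rw [sgn_scale' hA, sgn_scale' hA]; exact n13)
    (by rw [sgn_scale hA, sgn_scale hA]; exact n31)
    (by rw [sgn_scale hA, sgn_scale hA]; exact n23)
    (by rw [sgn_scale' hA, sgn_scale' hA]; exact n32)
    (mul_ne_zero hA s1) (mul_ne_zero hA s2) (mul_ne_zero hA s3)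

theorem Cfg.zz {x y z u v : V} (h : Cfg G x y z u v) (hd : IsDrawing G φ)
    (hu : Inside (φ x) (φ y) (φ u) (φ z)) (hv : Inside (φ x) (φ y) (φ v) (φ z)) : False := by
  obtain ⟨n12, n21, n13, n31, n23, n32⟩ := h.data hd
  have hA : det (φ x) (φ y) (φ z) ≠ 0 := hd.det_ne h.xy h.yz h.zx.symm
  rw [inside_iff_z] at hu hv
  obtain ⟨hB, hC, hD⟩ := hu
  obtain ⟨hB', hC', hD'⟩ := hv
  have s1 : det (φ u) (φ x) (φ v) ≠ 0 := fun h0 =>
    h.noray hd h0 (w := y) (pos_of_scaled hB hB')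
  have s2 : det (φ u) (φ y) (φ v) ≠ 0 := fun h0 =>
    h.rot.noray hd h0 (w := z) (pos_of_scaled' hC hC')
  have s3 : det (φ u) (φ z) (φ v) ≠ 0 := fun h0 =>
    h.rot.rot.noray hd h0 (w := x) (pos_of_scaled' hD hD')
  exact core_zz hB hC hD hB' hC' hD'
    (s1 := det (φ x) (φ y) (φ z) * det (φ u) (φ x) (φ v))
    (s2 := det (φ x) (φ y) (φ z) * det (φ u) (φ y) (φ v))
    (s3 := det (φ x) (φ y) (φ z) * det (φ u) (φ z) (φ v))
    (by rw [sgn_scale hA, sgn_scale hA]; exact n12)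
    (by rw [sgn_scale' hA, sgn_scale' hA]; exact n21)
    (by rw [sgn_scale' hA, sgn_scale' hA]; exact n13)
    (by rw [sgn_scale hA, sgn_scale hA]; exact n31)
    (by rw [sgn_scale hA, sgn_scale hA]; exact n23)
    (by rw [sgn_scale' hA, sgn_scale' hA]; exact n32)
    (mul_ne_zero hA s1) (mul_ne_zero hA s2) (mul_ne_zero hA s3)

theorem Cfg.zx' {x y z u v : V} (h : Cfg G x y z u v) (hd : IsDrawing G φ)
    (hu : Inside (φ x) (φ y) (φ u) (φ z)) (hv : Inside (φ y) (φ z) (φ v) (φ x)) : False := by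
  obtain ⟨n12, n21, n13, n31, n23, n32⟩ := h.data hd
  have hA : det (φ x) (φ y) (φ z) ≠ 0 := hd.det_ne h.xy h.yz h.zx.symm
  rw [inside_iff_z] at hu hv
  have r3 : det (φ y) (φ z) (φ x) = det (φ x) (φ y) (φ z) := by simp only [det]; ring
  rw [r3] at hv
  obtain ⟨hB, hC, hD⟩ := hu
  obtain ⟨hC', hD', hB'⟩ := hv
  have s1 : det (φ u) (φ x) (φ v) ≠ 0 := fun h0 =>
    h.noray hd h0 (w := z) (by
      have e1 : det (φ x) (φ z) (φ u) = - det (φ z) (φ x) (φ u) := by simp only [det]; ring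
      have e2 : det (φ x) (φ z) (φ v) = - det (φ z) (φ x) (φ v) := by simp only [det]; ring
      rw [e1, e2, neg_mul_neg]
      exact pos_of_scaled' hD hD')
  have s3 : det (φ u) (φ z) (φ v) ≠ 0 := fun h0 =>
    h.rot.rot.noray hd h0 (w := x) (pos_of_scaled' hD hD')
  have e1 : det (φ u) (φ x) (φ v) * det (φ y) (φ z) (φ u) +
      det (φ u) (φ y) (φ v) * det (φ z) (φ x) (φ u) +
      det (φ u) (φ z) (φ v) * det (φ x) (φ y) (φ u) = 0 := by simp only [det]; ring
  have e2 : det (φ u) (φ x) (φ v) * det (φ y) (φ z) (φ v) +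
      det (φ u) (φ y) (φ v) * det (φ z) (φ x) (φ v) +
      det (φ u) (φ z) (φ v) * det (φ x) (φ y) (φ v) = 0 := by simp only [det]; ring
  exact core_zx hB hC hD hB' hC' hD'
    (s1 := det (φ x) (φ y) (φ z) * det (φ u) (φ x) (φ v))
    (s2 := det (φ x) (φ y) (φ z) * det (φ u) (φ y) (φ v))
    (s3 := det (φ x) (φ y) (φ z) * det (φ u) (φ z) (φ v))
    (by linear_combination (det (φ x) (φ y) (φ z) * det (φ x) (φ y) (φ z)) * e1)
    (by linear_combination (det (φ x) (φ y) (φ z) * det (φ x) (φ y) (φ z)) * e2)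
    (by rw [sgn_scale hA, sgn_scale hA]; exact n12)
    (by rw [sgn_scale' hA, sgn_scale' hA]; exact n13)
    (by rw [sgn_scale hA, sgn_scale hA]; exact n31)
    (by rw [sgn_scale hA, sgn_scale hA]; exact n23)
    (mul_ne_zero hA s1) (mul_ne_zero hA s3)

/-- the triangle `xyz` separates `u` from `v` -/
theorem Cfg.sep {x y z u v : V} (h : Cfg G x y z u v) (hd : IsDrawing G φ)
    (hu : ¬ Inside (φ x) (φ y) (φ z) (φ u)) : Inside (φ x) (φ y) (φ z) (φ v) := by
  rcases hd.k4 h.xy h.yz h.zx h.ux h.uy h.uz with hu1 | hu1 | hu1 | hu1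
  · exact absurd hu1 hu
  all_goals rcases hd.k4 h.xy h.yz h.zx h.vx h.vy h.vz with hv1 | hv1 | hv1 | hv1
  · exact hv1
  · exact (h.zz hd hu1 hv1).elim
  · exact (h.zx' hd hu1 hv1).elim
  · exact (h.sw.rot.rot.zx' hd hv1 hu1).elim
  · exact hv1
  · exact (h.sw.zx' hd hv1 hu1).elim
  · exact (h.rot.zz hd hu1 hv1).elim
  · exact (h.rot.zx' hd hu1 hv1).elim
  · exact hv1
  · exact (h.rot.rot.zx' hd hu1 hv1).elim
  · exact (h.sw.rot.zx' hd hv1 hu1).elim
  · exact (h.rot.rot.zz hd hu1 hv1).elim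

theorem Cfg.sep' {x y z u v : V} (h : Cfg G x y z u v) (hd : IsDrawing G φ)
    (hu : Inside (φ x) (φ y) (φ z) (φ u)) : ¬ Inside (φ x) (φ y) (φ z) (φ v) :=
  fun hv => h.in_in hd hu hv

theorem not_inside_of_z {x y z u : ℝ × ℝ} (h : Inside x y u z) : ¬ Inside x y z u := by
  rw [inside_iff_z] at h
  rintro ⟨_, h2, _⟩
  linarith [h.2.1]

theorem not_inside_of_zx {x y z u : ℝ × ℝ} (h : Inside x y u z) : ¬ Inside y z u x := by
  intro h2
  rw [inside_iff_z] at h h2
  have r3 : det y z x = det x y z := by simp only [det]; ring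
  rw [r3] at h2
  linarith [h.2.1, h2.1]

end Drawing

end Pool.Agent.R489.UPS
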