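import Pool.Agent.R489.UPS.K5

/-!
Stacked triangulations coded by insertion histories `s` with `s i < 2 * i + 1`.
Labels `0,1,2,3` form a `K4`; vertex `4 + i` is put into the face number `s i`.
-/

set_option autoImplicit false

namespace Pool.Agent.R489.UPS

/-- faces below the triangle `0,1,2` (with their apex) after `i` insertions -/
def F (s : ℕ → ℕ) : ℕ → ℕ → ℕ × ℕ × ℕ × ℕ
  | 0, _ => (0, 1, 2, 3)
  | i + 1, j =>
    if j = 2 * i + 1 then ((F s i (s i)).2.1, (F s i (s i)).2.2.1, 4 + i, (F s i (s i)).1)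
    else if j = 2 * i + 2 then
      ((F s i (s i)).2.2.1, (F s i (s i)).1, 4 + i, (F s i (s i)).2.1)
    else if j = s i then ((F s i (s i)).1, (F s i (s i)).2.1, 4 + i, (F s i (s i)).2.2.1)
    else F s i j

/-- adjacency of the stacked triangulation with `m` inserted vertices -/
def TAdj (s : ℕ → ℕ) (m a b : ℕ) : Prop :=
  (a < 4 ∧ b < 4 ∧ a ≠ b) ∨
  ∃ i < m, (a = 4 + i ∧ (b = (F s i (s i)).1 ∨ b = (F s i (s i)).2.1 ∨
      b = (F s i (s i)).2.2.1)) ∨
    (b = 4 + i ∧ (a = (F s i (s i)).1 ∨ a = (F s i (s i)).2.1 ∨ a = (F s i (s i)).2.2.1))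

theorem TAdj.symm {s : ℕ → ℕ} {m a b : ℕ} (h : TAdj s m a b) : TAdj s m b a := by
  rcases h with ⟨h1, h2, h3⟩ | ⟨i, hi, h | h⟩
  · exact Or.inl ⟨h2, h1, h3.symm⟩
  · exact Or.inr ⟨i, hi, Or.inr h⟩
  · exact Or.inr ⟨i, hi, Or.inl h⟩

theorem TAdj.mono {s : ℕ → ℕ} {m n a b : ℕ} (hmn : m ≤ n) (h : TAdj s m a b) :
    TAdj s n a b := by
  rcases h with h | ⟨i, hi, h⟩
  · exact Or.inl h
  · exact Or.inr ⟨i, by omega, h⟩

theorem TAdj_succ {s : ℕ → ℕ} {m a b : ℕ} : TAdj s (m + 1) a b ↔ TAdj s m a b ∨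
    (a = 4 + m ∧ (b = (F s m (s m)).1 ∨ b = (F s m (s m)).2.1 ∨ b = (F s m (s m)).2.2.1)) ∨
    (b = 4 + m ∧ (a = (F s m (s m)).1 ∨ a = (F s m (s m)).2.1 ∨ a = (F s m (s m)).2.2.1)) := by
  constructor
  · rintro (h | ⟨i, hi, h⟩)
    · exact Or.inl (Or.inl h)
    · rcases Nat.lt_succ_iff_lt_or_eq.1 hi with h1 | h1
      · exact Or.inl (Or.inr ⟨i, h1, h⟩)
      · subst h1; exact Or.inr h
  · rintro (h | h)
    · exact h.mono (Nat.le_succ m)
    · exact Or.inr ⟨m, Nat.lt_succ_self m, h⟩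

/-- all labels of a face are pairwise adjacent -/
structure Quad (R : ℕ → ℕ → Prop) (q : ℕ × ℕ × ℕ × ℕ) : Prop where
  xy : R q.1 q.2.1
  yz : R q.2.1 q.2.2.1
  zx : R q.2.2.1 q.1
  ux : R q.2.2.2 q.1
  uy : R q.2.2.2 q.2.1
  uz : R q.2.2.2 q.2.2.1

theorem F_cases (s : ℕ → ℕ) (i j : ℕ) (P : ℕ × ℕ × ℕ × ℕ → Prop)
    (h1 : P ((F s i (s i)).2.1, (F s i (s i)).2.2.1, 4 + i, (F s i (s i)).1))
    (h2 : P ((F s i (s i)).2.2.1, (F s i (s i)).1, 4 + i, (F s i (s i)).2.1))
    (h3 : P ((F s i (s i)).1, (F s i (s i)).2.1, 4 + i, (F s i (s i)).2.2.1))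
    (h4 : j ≠ 2 * i + 1 → j ≠ 2 * i + 2 → j ≠ s i → P (F s i j)) : P (F s (i + 1) j) := by
  simp only [F]
  split_ifs with a b c
  · exact h1
  · exact h2
  · exact h3
  · exact h4 a b c

theorem F_lt {s : ℕ → ℕ} : ∀ (i j : ℕ), (F s i j).1 < 4 + i ∧ (F s i j).2.1 < 4 + i ∧
    (F s i j).2.2.1 < 4 + i ∧ (F s i j).2.2.2 < 4 + i := by
  intro i
  induction i with
  | zero => intro j; simp [F]
  | succ i ih =>
    intro j
    obtain ⟨a, b, c, d⟩ := ih (s i)
    refine F_cases s i j (fun q => q.1 < 4 + (i + 1) ∧ q.2.1 < 4 + (i + 1) ∧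
      q.2.2.1 < 4 + (i + 1) ∧ q.2.2.2 < 4 + (i + 1)) ?_ ?_ ?_ ?_
    · exact ⟨by simp only; omega, by simp only; omega, by simp only; omega, by simp only; omega⟩
    · exact ⟨by simp only; omega, by simp only; omega, by simp only; omega, by simp only; omega⟩
    · exact ⟨by simp only; omega, by simp only; omega, by simp only; omega, by simp only; omega⟩
    · intro _ _ _
      obtain ⟨a, b, c, d⟩ := ih j
      exact ⟨by omega, by omega, by omega, by omega⟩

theorem F_quad {s : ℕ → ℕ} : ∀ (i j : ℕ), Quad (TAdj s i) (F s i j) := by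
  intro i
  induction i with
  | zero =>
    intro j
    simp only [F]
    exact ⟨Or.inl (by decide), Or.inl (by decide), Or.inl (by decide), Or.inl (by decide),
      Or.inl (by decide), Or.inl (by decide)⟩
  | succ i ih =>
    intro j
    have hq := ih (s i)
    have mono : ∀ {a b}, TAdj s i a b → TAdj s (i + 1) a b := fun h => h.mono (Nat.le_succ i)
    have vx : TAdj s (i + 1) (4 + i) (F s i (s i)).1 :=
      TAdj_succ.2 (Or.inr (Or.inl ⟨rfl, Or.inl rfl⟩))
    have vy : TAdj s (i + 1) (4 + i) (F s i (s i)).2.1 :=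
      TAdj_succ.2 (Or.inr (Or.inl ⟨rfl, Or.inr (Or.inl rfl)⟩))
    have vz : TAdj s (i + 1) (4 + i) (F s i (s i)).2.2.1 :=
      TAdj_succ.2 (Or.inr (Or.inl ⟨rfl, Or.inr (Or.inr rfl)⟩))
    refine F_cases s i j _ ?_ ?_ ?_ ?_
    · exact ⟨mono hq.yz, vz.symm, vy, mono hq.xy, mono hq.zx.symm, vx.symm⟩
    · exact ⟨mono hq.zx, vx.symm, vz, mono hq.yz, mono hq.xy.symm, vy.symm⟩
    · exact ⟨mono hq.xy, vy.symm, vx, mono hq.zx, mono hq.yz.symm, vz.symm⟩
    · intro _ _ _
      have h := ih j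
      exact ⟨mono h.xy, mono h.yz, mono h.zx, mono h.ux, mono h.uy, mono h.uz⟩

theorem TAdj.ne {s : ℕ → ℕ} {m a b : ℕ} (h : TAdj s m a b) : a ≠ b := by
  rcases h with ⟨_, _, h⟩ | ⟨i, _, ⟨h1, h2⟩ | ⟨h1, h2⟩⟩
  · exact h
  · obtain ⟨a1, a2, a3, _⟩ := F_lt (s := s) i (s i)
    rcases h2 with h2 | h2 | h2 <;> omega
  · obtain ⟨a1, a2, a3, _⟩ := F_lt (s := s) i (s i)
    rcases h2 with h2 | h2 | h2 <;> omega

theorem TAdj.lt {s : ℕ → ℕ} {m a b : ℕ} (h : TAdj s m a b) : a < 4 + m ∧ b < 4 + m := by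
  rcases h with ⟨_, _, h⟩ | ⟨i, hi, ⟨h1, h2⟩ | ⟨h1, h2⟩⟩
  · omega
  · obtain ⟨a1, a2, a3, _⟩ := F_lt (s := s) i (s i)
    rcases h2 with h2 | h2 | h2 <;> omega
  · obtain ⟨a1, a2, a3, _⟩ := F_lt (s := s) i (s i)
    rcases h2 with h2 | h2 | h2 <;> omega

/-- the set of labels of a face -/
def fs (q : ℕ × ℕ × ℕ × ℕ) : Set ℕ := {q.1, q.2.1, q.2.2.1}

theorem fs_lt {s : ℕ → ℕ} {i j k : ℕ} (h : k ∈ fs (F s i j)) : k < 4 + i := by
  obtain ⟨a, b, c, _⟩ := F_lt (s := s) i j
  simp only [fs, Set.mem_insert_iff, Set.mem_singleton_iff] at h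
  rcases h with h | h | h <;> omega

theorem F_dist {s : ℕ → ℕ} : ∀ (i j j' : ℕ), j < 2 * i + 1 → j' < 2 * i + 1 →
    fs (F s i j) = fs (F s i j') → j = j' := by
  intro i
  induction i with
  | zero => intro j j' h1 h2 _; omega
  | succ i ih =>
    intro j j' hj hj' hE
    have hq := F_quad (s := s) i (s i)
    have hxy := hq.xy.ne
    have hyz := hq.yz.ne
    have hzx := hq.zx.ne
    obtain ⟨l1, l2, l3, _⟩ := F_lt (s := s) i (s i)
    have hold : ∀ j, j ≠ 2 * i + 1 → j ≠ 2 * i + 2 → j ≠ s i → F s (i + 1) j = F s i j := by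
      intro j a b c; simp only [F]; rw [if_neg a, if_neg b, if_neg c]
    have hnot : ∀ j, (4 + i) ∉ fs (F s i j) := fun j h => by
      have := fs_lt h; omega
    by_cases o1 : j ≠ 2 * i + 1 ∧ j ≠ 2 * i + 2 ∧ j ≠ s i
    · by_cases o2 : j' ≠ 2 * i + 1 ∧ j' ≠ 2 * i + 2 ∧ j' ≠ s i
      · rw [hold j o1.1 o1.2.1 o1.2.2, hold j' o2.1 o2.2.1 o2.2.2] at hE
        exact ih j j' (by omega) (by omega) hE
      · exfalso
        rw [hold j o1.1 o1.2.1 o1.2.2] at hE
        apply hnot j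
        rw [hE]
        simp only [F]
        split_ifs with a b c
        · simp [fs]
        · simp [fs]
        · simp [fs]
        · exact absurd ⟨a, b, c⟩ o2
    · by_cases o2 : j' ≠ 2 * i + 1 ∧ j' ≠ 2 * i + 2 ∧ j' ≠ s i
      · exfalso
        rw [hold j' o2.1 o2.2.1 o2.2.2] at hE
        apply hnot j'
        rw [← hE]
        simp only [F]
        split_ifs with a b c
        · simp [fs]
        · simp [fs]
        · simp [fs]
        · exact absurd ⟨a, b, c⟩ o1
      · -- both new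
        set x := (F s i (s i)).1 with hx
        set y := (F s i (s i)).2.1 with hy
        set z := (F s i (s i)).2.2.1 with hz
        have m1 : ∀ {j}, j = 2 * i + 1 → fs (F s (i + 1) j) = {y, z, 4 + i} := by
          rintro j rfl; simp only [F, fs]; simp [hy, hz]
        have m2 : ∀ {j}, j = 2 * i + 2 → fs (F s (i + 1) j) = {z, x, 4 + i} := by
          rintro j rfl; simp only [F, fs]; simp [hz, hx]
        have m3 : ∀ {j}, j ≠ 2 * i + 1 → j ≠ 2 * i + 2 → j = s i →
            fs (F s (i + 1) j) = {x, y, 4 + i} := by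
          rintro j a b c; simp only [F, fs]; rw [if_neg a, if_neg b, if_pos c]
        have key : ∀ a b c d : ℕ, a ≠ b → c ≠ a → c ≠ b → c ≠ d →
            ({a, b, d} : Set ℕ) ≠ {b, c, d} := by
          intro a b c d _ h2 h3 h4 hh
          have : c ∈ ({a, b, d} : Set ℕ) := by rw [hh]; simp
          simp only [Set.mem_insert_iff, Set.mem_singleton_iff] at this
          rcases this with h | h | h
          · exact h2 h
          · exact h3 h
          · exact h4 h
        by_cases a1 : j = 2 * i + 1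
        · by_cases a2 : j' = 2 * i + 1
          · omega
          · by_cases b2 : j' = 2 * i + 2
            · rw [m1 a1, m2 b2] at hE
              exact absurd hE (key y z x (4 + i) hyz hxy (fun h => hzx h.symm) (by omega))
            · have c2 : j' = s i := by
                by_contra h; exact o2 ⟨a2, b2, h⟩
              rw [m1 a1, m3 a2 b2 c2] at hE
              exact absurd hE.symm (key x y z (4 + i) hxy hzx (fun h => hyz h.symm) (by omega))
        · by_cases b1 : j = 2 * i + 2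
          · by_cases a2 : j' = 2 * i + 1
            · rw [m2 b1, m1 a2] at hE
              exact absurd hE.symm (key y z x (4 + i) hyz hxy (fun h => hzx h.symm) (by omega))
            · by_cases b2 : j' = 2 * i + 2
              · omega
              · have c2 : j' = s i := by
                  by_contra h; exact o2 ⟨a2, b2, h⟩
                rw [m2 b1, m3 a2 b2 c2] at hE
                exact absurd hE (key z x y (4 + i) hzx hyz (fun h => hxy h.symm) (by omega))
          · have c1 : j = s i := by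
              by_contra h; exact o1 ⟨a1, b1, h⟩
            by_cases a2 : j' = 2 * i + 1
            · rw [m3 a1 b1 c1, m1 a2] at hE
              exact absurd hE (key x y z (4 + i) hxy hzx (fun h => hyz h.symm) (by omega))
            · by_cases b2 : j' = 2 * i + 2
              · rw [m3 a1 b1 c1, m2 b2] at hE
                exact absurd hE.symm (key z x y (4 + i) hzx hyz (fun h => hxy h.symm) (by omega))
              · have c2 : j' = s i := by
                  by_contra h; exact o2 ⟨a2, b2, h⟩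
                omega

end Pool.Agent.R489.UPS
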