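import Pool.Agent.R489.UPS.Stack

/-!
Closed and open triangles, subdivision of a triangle by an interior point.
-/

set_option autoImplicit false

namespace Pool.Agent.R489.UPS

/-- `p` lies in the closed triangle with corners `x`, `y`, `z` -/
def InC (x y z p : ℝ × ℝ) : Prop :=
  ∃ a b c : ℝ, 0 ≤ a ∧ 0 ≤ b ∧ 0 ≤ c ∧ a + b + c = 1 ∧
    p.1 = a * x.1 + b * y.1 + c * z.1 ∧ p.2 = a * x.2 + b * y.2 + c * z.2

theorem inside_iff {x y z p : ℝ × ℝ} : Inside x y z p ↔ det x y z ≠ 0 ∧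
    ∃ a b c : ℝ, 0 < a ∧ 0 < b ∧ 0 < c ∧ a + b + c = 1 ∧
    p.1 = a * x.1 + b * y.1 + c * z.1 ∧ p.2 = a * x.2 + b * y.2 + c * z.2 := by
  constructor
  · rintro ⟨h1, h2, h3⟩
    have hA : det x y z ≠ 0 := by intro h; rw [h] at h1; simp at h1
    have hpos : ∀ t, 0 < det x y z * t → 0 < t / det x y z := by
      intro t ht
      have : t / det x y z = (det x y z * t) / (det x y z)^2 := by field_simp
      rw [this]; positivity
    have e : det x y p + det y z p + det z x p = det x y z := by simp only [det]; ring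
    refine ⟨hA, det y z p / det x y z, det z x p / det x y z, det x y p / det x y z,
      hpos _ h2, hpos _ h3, hpos _ h1, ?_, ?_, ?_⟩
    · rw [← add_div, ← add_div, div_eq_one_iff_eq hA]; linarith
    · field_simp
      simp only [det]; ring
    · field_simp
      simp only [det]; ring
  · rintro ⟨hA, a, b, c, ha, hb, hc, hs, e1, e2⟩
    have hA2 : 0 < det x y z * det x y z := mul_self_pos.2 hA
    have ha' : a = 1 - b - c := by linarith
    have i1 : det x y p = c * det x y z := by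
      simp only [det, e1, e2]; subst ha'; ring
    have i2 : det y z p = a * det x y z := by
      simp only [det, e1, e2]; subst ha'; ring
    have i3 : det z x p = b * det x y z := by
      simp only [det, e1, e2]; subst ha'; ring
    refine ⟨?_, ?_, ?_⟩
    · rw [i1]; nlinarith
    · rw [i2]; nlinarith
    · rw [i3]; nlinarith

theorem Inside.det_ne {x y z p : ℝ × ℝ} (h : Inside x y z p) : det x y z ≠ 0 :=
  (inside_iff.1 h).1

theorem Inside.inC {x y z p : ℝ × ℝ} (h : Inside x y z p) : InC x y z p := by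
  obtain ⟨_, a, b, c, ha, hb, hc, hs, e1, e2⟩ := inside_iff.1 h
  exact ⟨a, b, c, ha.le, hb.le, hc.le, hs, e1, e2⟩

theorem InC.rot {x y z p : ℝ × ℝ} (h : InC x y z p) : InC y z x p := by
  obtain ⟨a, b, c, ha, hb, hc, hs, e1, e2⟩ := h
  exact ⟨b, c, a, hb, hc, ha, by linarith, by linarith, by linarith⟩

theorem InC.swap {x y z p : ℝ × ℝ} (h : InC x y z p) : InC y x z p := by
  obtain ⟨a, b, c, ha, hb, hc, hs, e1, e2⟩ := h
  exact ⟨b, a, c, hb, ha, hc, by linarith, by linarith, by linarith⟩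

theorem inC_x (x y z : ℝ × ℝ) : InC x y z x :=
  ⟨1, 0, 0, by norm_num, le_rfl, le_rfl, by norm_num, by ring, by ring⟩

theorem inC_y (x y z : ℝ × ℝ) : InC x y z y := (inC_x y z x).rot.rot

theorem inC_z (x y z : ℝ × ℝ) : InC x y z z := (inC_x z x y).rot

theorem InC.trans {x y z x' y' z' p : ℝ × ℝ} (hx : InC x y z x') (hy : InC x y z y')
    (hz : InC x y z z') (h : InC x' y' z' p) : InC x y z p := by
  obtain ⟨a, b, c, ha, hb, hc, hs, e1, e2⟩ := h
  obtain ⟨a1, b1, c1, ha1, hb1, hc1, hs1, f1, g1⟩ := hx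
  obtain ⟨a2, b2, c2, ha2, hb2, hc2, hs2, f2, g2⟩ := hy
  obtain ⟨a3, b3, c3, ha3, hb3, hc3, hs3, f3, g3⟩ := hz
  refine ⟨a * a1 + b * a2 + c * a3, a * b1 + b * b2 + c * b3, a * c1 + b * c2 + c * c3,
    by positivity, by positivity, by positivity, ?_, ?_, ?_⟩
  · linear_combination a * hs1 + b * hs2 + c * hs3 + hs
  · rw [e1, f1, f2, f3]; ring
  · rw [e2, g1, g2, g3]; ring

/-- an open triangle whose corners are in a closed triangle is in the open triangle -/
theorem Inside.mono {x y z x' y' z' p : ℝ × ℝ} (hx : InC x y z x') (hy : InC x y z y')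
    (hz : InC x y z z') (hA : det x y z ≠ 0) (h : Inside x' y' z' p) : Inside x y z p := by
  obtain ⟨hA', a, b, c, ha, hb, hc, hs, e1, e2⟩ := inside_iff.1 h
  obtain ⟨a1, b1, c1, ha1, hb1, hc1, hs1, f1, g1⟩ := hx
  obtain ⟨a2, b2, c2, ha2, hb2, hc2, hs2, f2, g2⟩ := hy
  obtain ⟨a3, b3, c3, ha3, hb3, hc3, hs3, f3, g3⟩ := hz
  have hdet : det x' y' z' = det x y z * (a1 * (b2 * c3 - b3 * c2) - a2 * (b1 * c3 - b3 * c1)
      + a3 * (b1 * c2 - b2 * c1)) := by
    have h1 : a1 = 1 - b1 - c1 := by linarith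
    have h2 : a2 = 1 - b2 - c2 := by linarith
    have h3 : a3 = 1 - b3 - c3 := by linarith
    simp only [det, f1, f2, f3, g1, g2, g3]
    subst h1; subst h2; subst h3; ring
  rw [inside_iff]
  have pos : ∀ {t1 t2 t3 : ℝ}, 0 ≤ t1 → 0 ≤ t2 → 0 ≤ t3 → ¬ (t1 = 0 ∧ t2 = 0 ∧ t3 = 0) →
      0 < a * t1 + b * t2 + c * t3 := by
    intro t1 t2 t3 h1 h2 h3 hne
    by_contra hcon
    apply hne
    have i1 := mul_nonneg ha.le h1
    have i2 := mul_nonneg hb.le h2
    have i3 := mul_nonneg hc.le h3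
    have j1 : a * t1 = 0 := by linarith
    have j2 : b * t2 = 0 := by linarith
    have j3 : c * t3 = 0 := by linarith
    refine ⟨?_, ?_, ?_⟩
    · rcases mul_eq_zero.1 j1 with h | h
      · linarith
      · exact h
    · rcases mul_eq_zero.1 j2 with h | h
      · linarith
      · exact h
    · rcases mul_eq_zero.1 j3 with h | h
      · linarith
      · exact h
  refine ⟨hA, a * a1 + b * a2 + c * a3, a * b1 + b * b2 + c * b3, a * c1 + b * c2 + c * c3,
    ?_, ?_, ?_, ?_, ?_, ?_⟩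
  · apply pos ha1 ha2 ha3
    rintro ⟨h1, h2, h3⟩
    apply hA'; rw [hdet, h1, h2, h3]; ring
  · apply pos hb1 hb2 hb3
    rintro ⟨h1, h2, h3⟩
    apply hA'; rw [hdet, h1, h2, h3]; ring
  · apply pos hc1 hc2 hc3
    rintro ⟨h1, h2, h3⟩
    apply hA'; rw [hdet, h1, h2, h3]; ring
  · linear_combination a * hs1 + b * hs2 + c * hs3 + hs
  · rw [e1, f1, f2, f3]; ring
  · rw [e2, g1, g2, g3]; ring

theorem Inside.sub {x y z v p : ℝ × ℝ} (h : Inside x y z v) (h1 : Inside x y v p) :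
    Inside x y z p :=
  Inside.mono (inC_x _ _ _) (inC_y _ _ _) h.inC h.det_ne h1

theorem Inside.disj {x y z v p : ℝ × ℝ} (h : Inside x y z v) (h1 : Inside x y v p)
    (h2 : Inside y z v p) : False := by
  obtain ⟨a1, a2, a3⟩ := h
  obtain ⟨b1, b2, b3⟩ := h1
  obtain ⟨c1, c2, c3⟩ := h2
  have e : det v y p = - det y v p := by simp only [det]; ring
  rw [e] at c3
  have hE : 0 < det x y v * det y z v := pos_of_scaled a1 a2
  have h3 : 0 < (det x y v * det y v p) * (det y z v * - det y v p) := mul_pos b2 c3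
  nlinarith [mul_self_nonneg (det y v p)]

theorem det_ne_rot {x y z : ℝ × ℝ} (h : det x y z ≠ 0) : det y z x ≠ 0 := by
  rwa [det_rot x y z]

theorem bary_x {x y z p : ℝ × ℝ} {a b c : ℝ} (hs : a + b + c = 1)
    (e1 : p.1 = a * x.1 + b * y.1 + c * z.1) (e2 : p.2 = a * x.2 + b * y.2 + c * z.2) :
    det y z p = a * det x y z := by
  have ha' : a = 1 - b - c := by linarith
  simp only [det, e1, e2]; subst ha'; ring

/-- corners are extreme points -/
theorem extreme {x y z x' y' z' : ℝ × ℝ} (hA : det x y z ≠ 0) (hx : InC x y z x')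
    (hy : InC x y z y') (hz : InC x y z z') (h : InC x' y' z' x) :
    x = x' ∨ x = y' ∨ x = z' := by
  obtain ⟨a, b, c, ha, hb, hc, hs, e1, e2⟩ := h
  obtain ⟨a1, b1, c1, ha1, hb1, hc1, hs1, f1, g1⟩ := hx
  obtain ⟨a2, b2, c2, ha2, hb2, hc2, hs2, f2, g2⟩ := hy
  obtain ⟨a3, b3, c3, ha3, hb3, hc3, hs3, f3, g3⟩ := hz
  have k1 : a * a1 + b * a2 + c * a3 = 1 := by
    have h1 : det y z x = (a * a1 + b * a2 + c * a3) * det x y z := by
      apply bary_x (b := a * b1 + b * b2 + c * b3) (c := a * c1 + b * c2 + c * c3)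
      · linear_combination a * hs1 + b * hs2 + c * hs3 + hs
      · rw [f1, f2, f3] at e1; linear_combination e1
      · rw [g1, g2, g3] at e2; linear_combination e2
    rw [det_rot] at h1
    have : (a * a1 + b * a2 + c * a3 - 1) * det x y z = 0 := by linarith
    rcases mul_eq_zero.1 this with h | h
    · linarith
    · exact absurd h hA
  have l1 : a * (1 - a1) + b * (1 - a2) + c * (1 - a3) = 0 := by linarith
  have m1 := mul_nonneg ha (by linarith : (0:ℝ) ≤ 1 - a1)
  have m2 := mul_nonneg hb (by linarith : (0:ℝ) ≤ 1 - a2)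
  have m3 := mul_nonneg hc (by linarith : (0:ℝ) ≤ 1 - a3)
  have n1 : a * (1 - a1) = 0 := by linarith
  have n2 : b * (1 - a2) = 0 := by linarith
  have n3 : c * (1 - a3) = 0 := by linarith
  have fin : ∀ {t1 t2 t3 : ℝ} {q : ℝ × ℝ}, 0 ≤ t2 → 0 ≤ t3 → t1 + t2 + t3 = 1 →
      q.1 = t1 * x.1 + t2 * y.1 + t3 * z.1 → q.2 = t1 * x.2 + t2 * y.2 + t3 * z.2 →
      t1 = 1 → x = q := by
    intro t1 t2 t3 q h2 h3 hh i1 i2 ht
    have u2 : t2 = 0 := by linarith
    have u3 : t3 = 0 := by linarith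
    subst ht; subst u2; subst u3
    ext
    · rw [i1]; ring
    · rw [i2]; ring
  rcases mul_eq_zero.1 n1 with h | h
  · rcases mul_eq_zero.1 n2 with h' | h'
    · rcases mul_eq_zero.1 n3 with h'' | h''
      · linarith
      · right; right; exact fin hb3 hc3 hs3 f3 g3 (by linarith)
    · right; left; exact fin hb2 hc2 hs2 f2 g2 (by linarith)
  · left; exact fin hb1 hc1 hs1 f1 g1 (by linarith)

/-- facts about the three triangles `xyv`, `yzv`, `zxv` when `v` is inside `xyz` -/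
theorem in_case {x y z v : ℝ × ℝ} (h : Inside x y z v) :
    (¬ Inside x y v z ∧ ∀ p, Inside x y v p → Inside x y z p) ∧
    (¬ Inside y z v x ∧ ∀ p, Inside y z v p → Inside x y z p) ∧
    (¬ Inside z x v y ∧ ∀ p, Inside z x v p → Inside x y z p) ∧
    (∀ p, ¬ (Inside x y v p ∧ Inside y z v p)) ∧ (∀ p, ¬ (Inside y z v p ∧ Inside z x v p)) ∧
    (∀ p, ¬ (Inside z x v p ∧ Inside x y v p)) := by
  refine ⟨⟨not_inside_of_z h, fun p hp => h.sub hp⟩,
    ⟨fun hh => not_inside_of_z h.rot hh, fun p hp => (h.rot.sub hp).rot.rot⟩,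
    ⟨fun hh => not_inside_of_z h.rot.rot hh, fun p hp => (h.rot.rot.sub hp).rot⟩, ?_, ?_, ?_⟩
  · rintro p ⟨h1, h2⟩; exact h.disj h1 h2
  · rintro p ⟨h1, h2⟩; exact h.rot.disj h1 h2
  · rintro p ⟨h1, h2⟩; exact h.rot.rot.disj h1 h2

/-- facts about the three triangles when `z` is inside `xyv` -/
theorem out_case {x y z v : ℝ × ℝ} (h : Inside x y v z) :
    (∀ p, InC x y z p → InC x y v p) ∧
    (¬ Inside y z v x ∧ ∀ p, Inside y z v p → ¬ Inside x y z p) ∧
    (¬ Inside z x v y ∧ ∀ p, Inside z x v p → ¬ Inside x y z p) ∧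
    (∀ p, ¬ (Inside y z v p ∧ Inside z x v p)) := by
  have p1 : ∀ {p}, Inside y z v p → Inside y v z p := fun h => h.rot.swap.rot.rot
  have p2 : ∀ {p}, Inside z x v p → Inside v x z p := fun h => h.rot.swap
  refine ⟨fun p hp => (inC_x _ _ _).trans (inC_y _ _ _) h.inC hp,
    ⟨not_inside_of_zx h, ?_⟩, ⟨?_, ?_⟩, ?_⟩
  · intro p h1 h2
    exact h.disj h2 (p1 h1)
  · -- not inside z x v y
    intro h2
    have h3 : Inside y x v z := h.swap
    have h4 : Inside x z v y := h2.swap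
    exact not_inside_of_zx h3 h4
  · intro p h1 h2
    exact h.rot.rot.disj (p2 h1) h2
  · rintro p ⟨h1, h2⟩
    exact h.rot.disj (p1 h1) (p2 h2)

end Pool.Agent.R489.UPS
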